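import Mathlib

/-!
A covering criterion for Hausdorff dimension zero.
-/

namespace Pool.Agent.Work.MP_46c206_al

open Filter Topology MeasureTheory ENNReal

theorem tsum_pow_le {I : Type} (w : I → ℕ) (A : ℕ)
    (hcount : ∀ n, ∃ T : Finset I, T.card ≤ A ^ n ∧ ∀ i, w i = n → i ∈ T) (κ : ℝ≥0∞) :
    ∑' i, κ ^ w i ≤ (1 - A * κ)⁻¹ := by
  rw [← ENNReal.tsum_fiberwise _ w, ← ENNReal.tsum_geometric]
  refine ENNReal.tsum_le_tsum fun n => ?_
  obtain ⟨T, h1, h2⟩ := hcount n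
  have e : ∀ b : w ⁻¹' {n}, κ ^ w b = κ ^ n := fun b => by rw [b.2]
  simp only [e]
  rw [ENNReal.tsum_set_const, mul_pow]
  refine mul_le_mul_left ?_ _
  have h3 : (w ⁻¹' {n}).encard ≤ (T : Set I).encard := Set.encard_le_encard fun i hi => h2 i hi
  rw [Set.encard_coe_eq_coe_finsetCard] at h3
  calc ((w ⁻¹' {n}).encard : ℝ≥0∞) ≤ ((T.card : ℕ∞) : ℝ≥0∞) := by exact_mod_cast h3
    _ = (T.card : ℝ≥0∞) := by simp
    _ ≤ (A : ℝ≥0∞) ^ n := by exact_mod_cast h1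

theorem dimH_eq_zero_of_cover {X : Type} [MetricSpace X] {I : Type} [Countable I]
    (nrm w : I → ℕ) (t : I → Set X) (A : ℕ)
    (hcount : ∀ n, ∃ T : Finset I, T.card ≤ A ^ n ∧ ∀ i, w i = n → i ∈ T)
    (C θ : ℝ) (hC : 0 < C) (hθ0 : 0 < θ) (hθ1 : θ < 1)
    (hd : ∀ i, ∀ p ∈ t i, ∀ q ∈ t i, dist p q ≤ C * θ ^ nrm i) (E : Set X)
    (hE : ∀ p ∈ E, ∀ K n0, ∃ i, n0 ≤ nrm i ∧ K * w i < nrm i ∧ p ∈ t i) : dimH E = 0 := by
  borelize X
  refine le_antisymm (dimH_le fun s hs => ?_) zero_le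
  by_contra h0
  have hs0 : (0 : ℝ) < s := by
    rcases eq_or_lt_of_le s.2 with h | h
    · exact absurd (by rw [show s = 0 from NNReal.eq h.symm]; simp) h0
    · exact h
  have h1 : θ ^ (s : ℝ) < 1 := Real.rpow_lt_one hθ0.le hθ1 hs0
  have h2 : 0 < θ ^ (s : ℝ) := Real.rpow_pos_of_pos hθ0 _
  obtain ⟨K, hK⟩ := exists_pow_lt_of_lt_one (show (0 : ℝ) < 1 / (A + 1) by positivity) h1
  set κ : ℝ := (θ ^ (s : ℝ)) ^ K with hκ
  have hκ0 : 0 ≤ κ := by positivity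
  have hAκ : (A : ℝ≥0∞) * ENNReal.ofReal κ < 1 := by
    rw [← ENNReal.ofReal_natCast, ← ENNReal.ofReal_mul (by positivity), ENNReal.ofReal_lt_one]
    rw [lt_div_iff₀ (by positivity)] at hK
    nlinarith
  have hdiam : ∀ i, Metric.ediam (t i) ≤ ENNReal.ofReal (C * θ ^ nrm i) := fun i =>
    Metric.ediam_le_of_forall_dist_le (hd i)
  have key := Measure.hausdorffMeasure_le_liminf_tsum
    (ι := fun n0 : ℕ => {i : I // n0 ≤ nrm i ∧ K * w i < nrm i}) (s : ℝ) E (l := atTop)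
    (fun n0 => ENNReal.ofReal (C * θ ^ n0)) (by
      rw [← ENNReal.ofReal_zero]
      apply ENNReal.tendsto_ofReal
      simpa using (tendsto_pow_atTop_nhds_zero_of_lt_one hθ0.le hθ1).const_mul C)
    (fun _ i => t i.1) (Eventually.of_forall fun n0 i => (hdiam i.1).trans
      (ENNReal.ofReal_le_ofReal (mul_le_mul_of_nonneg_left
        (pow_le_pow_of_le_one hθ0.le hθ1.le i.2.1) hC.le)))
    (Eventually.of_forall fun n0 p hp => by
      obtain ⟨i, a1, a2, a3⟩ := hE p hp K n0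
      exact Set.mem_iUnion.2 ⟨⟨i, a1, a2⟩, a3⟩)
  have bound : ∀ n0 : ℕ, ∑' i : {i : I // n0 ≤ nrm i ∧ K * w i < nrm i},
      Metric.ediam (t i.1) ^ (s : ℝ) ≤
        ENNReal.ofReal (C ^ (s : ℝ)) * (1 - A * ENNReal.ofReal κ)⁻¹ := by
    intro n0
    calc _ ≤ ∑' i : {i : I // n0 ≤ nrm i ∧ K * w i < nrm i},
          ENNReal.ofReal (C ^ (s : ℝ)) * ENNReal.ofReal κ ^ w i.1 := by
          refine ENNReal.tsum_le_tsum fun i => ?_
          refine (ENNReal.rpow_le_rpow (hdiam i.1) hs0.le).trans ?_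
          rw [ENNReal.ofReal_rpow_of_nonneg (by positivity) hs0.le, ← ENNReal.ofReal_pow hκ0,
            ← ENNReal.ofReal_mul (by positivity), Real.mul_rpow hC.le (by positivity)]
          refine ENNReal.ofReal_le_ofReal (mul_le_mul_of_nonneg_left ?_ (by positivity))
          rw [← Real.rpow_natCast, ← Real.rpow_mul hθ0.le, mul_comm, Real.rpow_mul hθ0.le,
            Real.rpow_natCast, hκ, ← pow_mul]
          exact pow_le_pow_of_le_one h2.le h1.le i.2.2.le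
      _ ≤ ∑' i : I, ENNReal.ofReal (C ^ (s : ℝ)) * ENNReal.ofReal κ ^ w i :=
          ENNReal.tsum_comp_le_tsum_of_injective Subtype.val_injective
            (fun i : I => ENNReal.ofReal (C ^ (s : ℝ)) * ENNReal.ofReal κ ^ w i)
      _ ≤ _ := by
          rw [ENNReal.tsum_mul_left]
          exact mul_le_mul_right (tsum_pow_le w A hcount _) _
  have fin : ENNReal.ofReal (C ^ (s : ℝ)) * (1 - A * ENNReal.ofReal κ)⁻¹ < ⊤ :=
    ENNReal.mul_lt_top ENNReal.ofReal_lt_top (ENNReal.inv_lt_top.2 (tsub_pos_of_lt hAκ))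
  have := key.trans (liminf_le_of_frequently_le' (Frequently.of_forall bound))
  rw [hs] at this
  exact absurd (this.trans_lt fin) (lt_irrefl _)

end Pool.Agent.Work.MP_46c206_al
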