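import Mathlib

/-!
Word metrics, Gromov boundaries, Cannon-Thurston maps and visual metrics.
-/

namespace Pool.Agent.Work.MP_46c206_al

open Filter Topology

/-- The word length of `g` with respect to `S`: the least length of a word in the elements of `S`
and their inverses whose product is `g`. -/
noncomputable def wlen {G : Type} [Group G] (S : Set G) (g : G) : ℕ :=
  sInf {n | ∃ l : List G, l.length = n ∧ (∀ s ∈ l, s ∈ S ∨ s⁻¹ ∈ S) ∧ l.prod = g}

/-- The Gromov product `(x|y)` at the identity, for the left invariant metric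
`d x y = ℓ (x⁻¹ * y)`. -/
noncomputable def gp {G : Type} [Group G] (ℓ : G → ℕ) (x y : G) : ℝ :=
  ((ℓ x : ℝ) + (ℓ y : ℝ) - (ℓ (x⁻¹ * y) : ℝ)) / 2

/-- The left invariant metric `d x y = ℓ (x⁻¹ * y)` is Gromov hyperbolic. -/
def IsHyp {G : Type} [Group G] (ℓ : G → ℕ) : Prop :=
  ∃ δ : ℝ, ∀ x y z : G, min (gp ℓ x y) (gp ℓ y z) - δ ≤ gp ℓ x z

/-- A sequence that converges at infinity: `(u i | u j) → ∞` as `i, j → ∞`. -/
def IsGromov {G : Type} [Group G] (ℓ : G → ℕ) (u : ℕ → G) : Prop :=
  Tendsto (fun p : ℕ × ℕ => gp ℓ (u p.1) (u p.2)) atTop atTop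

/-- The Gromov boundary: sequences converging at infinity, two of them being identified when
`(u n | v n) → ∞`. -/
def Bd {G : Type} [Group G] (ℓ : G → ℕ) : Type :=
  Quot fun u v : {u : ℕ → G // IsGromov ℓ u} =>
    Tendsto (fun n => gp ℓ (u.1 n) (v.1 n)) atTop atTop

/-- The sequence `u` of group elements converges to the boundary point `p`. -/
def ConvTo {G : Type} [Group G] (ℓ : G → ℕ) (u : ℕ → G) (p : Bd ℓ) : Prop :=
  ∃ h : IsGromov ℓ u, Quot.mk _ ⟨u, h⟩ = p

/-- `c` is the Cannon-Thurston map of `ι`: whenever `u n → p` in `H`, then `ι (u n) → c p`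
in `G`. -/
def IsCT {H G : Type} [Group H] [Group G] (ℓH : H → ℕ) (ℓG : G → ℕ) (ι : H →* G)
    (c : Bd ℓH → Bd ℓG) : Prop :=
  ∀ (u : ℕ → H) (p : Bd ℓH), ConvTo ℓH u p → ConvTo ℓG (fun n => ι (u n)) (c p)

/-- The endpoint set of the lamination `{(p, q) : p ≠ q, c p = c q}`. -/
def endpoints {A B : Type} (c : A → B) : Set A :=
  {p | ∃ q, p ≠ q ∧ c p = c q}

/-- A metric simplicial tree (a tree with positive edge lengths) with an action of `F` by length
preserving graph automorphisms, free on the vertices. -/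
structure FreeTree (F : Type) [Group F] where
  V : Type
  Γ : SimpleGraph V
  tree : Γ.IsTree
  len : Sym2 V → ℝ
  len_pos : ∀ u v, Γ.Adj u v → 0 < len s(u, v)
  act : F →* Equiv.Perm V
  adj_act : ∀ g u v, Γ.Adj u v → Γ.Adj (act g u) (act g v)
  len_act : ∀ g u v, Γ.Adj u v → len s(act g u, act g v) = len s(u, v)
  free : ∀ g v, act g v = v → g = 1

/-- The distance of two vertices: the sum of the lengths of the edges of the unique path
joining them. -/
noncomputable def FreeTree.tdist {F : Type} [Group F] (T : FreeTree F) (u v : T.V) : ℝ :=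
  ((T.tree.existsUnique_path u v).exists.choose.edges.map T.len).sum

/-- The Gromov product `(u|v)_x` in the tree: the distance from `x` to the geodesic `[u, v]`. -/
noncomputable def FreeTree.tgp {F : Type} [Group F] (T : FreeTree F) (x u v : T.V) : ℝ :=
  (T.tdist x u + T.tdist x v - T.tdist u v) / 2

/-- `ρ` is the visual distance with base vertex `x` and parameter `a`: whenever `u n → p` and
`v n → q`, the numbers `a ^ (-(u n x | v n x)_x)` tend to `ρ p q`. -/
def IsVisual {F : Type} [Group F] (ℓ : F → ℕ) (T : FreeTree F) (x : T.V) (a : ℝ)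
    (ρ : Bd ℓ → Bd ℓ → ℝ) : Prop :=
  ∀ (u v : ℕ → F) (p q : Bd ℓ), ConvTo ℓ u p → ConvTo ℓ v q →
    Tendsto (fun n => a ^ (-T.tgp x (T.act (u n) x) (T.act (v n) x))) atTop (𝓝 (ρ p q))

end Pool.Agent.Work.MP_46c206_al
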