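import Pool.Agent.Work.MP_9628a2_al.Hyp
import Pool.Agent.Work.MP_46c206_al.Defs

-- merged part: Pool.Agent.Work.MP_46c206_al.Morse
section
/-!
Coarse geometry in hyperbolic graphs: retracts are quasiconvex, linear escape, paths in trees.
-/

namespace Pool.Agent.Work.MP_46c206_al

open Pool.Agent.QIB

variable {X : Type} [GSp X]

theorem sq_le_two_pow (k : ℕ) : k * k ≤ 2 * 2 ^ k := by
  induction k with
  | zero => simp
  | succ k ih =>
    have h : k < 2 ^ k := Nat.lt_two_pow_self
    rw [pow_succ]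
    rcases Nat.lt_or_ge k 3 with h3 | h3
    · interval_cases k <;> simp
    · nlinarith

theorem log_bound (A s D : ℕ) (h : ∀ k, 6 * D ≤ 2 ^ k → D ≤ A + s * k) :
    D ≤ A + s * (24 * A + 24 * s) := by
  rcases Nat.eq_zero_or_pos D with rfl | hD
  · omega
  have hex : ∃ k, 6 * D ≤ 2 ^ k := ⟨6 * D, Nat.lt_two_pow_self.le⟩
  classical
  have h1 := Nat.find_spec hex
  have h2 := fun m => @Nat.find_min _ _ hex m
  generalize Nat.find hex = k at *
  cases k with
  | zero => simp at h1; omega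
  | succ k =>
    have h3 := h2 k (by omega)
    have h4 := h (k + 1) h1
    have h5 := sq_le_two_pow (k + 1)
    rw [pow_succ] at h5
    have h6 : (k + 1) * (k + 1) ≤ 24 * A + 24 * (s * (k + 1)) := by omega
    have h7 : k + 1 ≤ 24 * A + 24 * s := by
      by_contra h8
      push Not at h8
      nlinarith
    have := Nat.mul_le_mul_left s h7
    omega

/-- A map that is Lipschitz on edges is Lipschitz. -/
theorem lip_of_edge {Y : Type} [GSp Y] (f : X → Y) (C : ℕ)
    (hf : ∀ x y, d x y = 1 → d (f x) (f y) ≤ C) (x y : X) : d (f x) (f y) ≤ C * d x y := by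
  suffices H : ∀ n, ∀ x : X, d x y = n → d (f x) (f y) ≤ C * n from H _ x rfl
  intro n
  induction n with
  | zero =>
    intro x h
    obtain rfl := eq_of_d x y h
    rw [d_self]; omega
  | succ n ih =>
    intro x h
    obtain ⟨z, hz1, hz2⟩ := GSp.step x y n h
    have h1 := ih z hz2
    have h2 := hf x z hz1
    have := d_tri (f x) (f z) (f y)
    rw [Nat.mul_succ]; omega

/-- The fixed set of a Lipschitz retraction is quasiconvex. -/
theorem retract_qc {s : ℕ} (h : Slim X s) (P : X → X) (C : ℕ)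
    (hL : ∀ x y, d x y = 1 → d (P x) (P y) ≤ C) (hP : ∀ x, P (P x) = P x)
    {a b : X} (ha : P a = a) (hb : P b = b) (p : X) (hp : Btw a p b) :
    ∃ y, P y = y ∧ d p y ≤ (2 * s + C) + s * (24 * (2 * s + C) + 24 * s) := by
  classical
  set B : Set X := {y | P y = y} with hB
  have hBne : B.Nonempty := ⟨a, ha⟩
  choose π hπ using exists_proj hBne
  have hbd : ∀ q, Btw a q b → d q (π q) ≤ d a b := by
    intro q hq
    have := (hπ q).2 b hb
    unfold QIB.Btw at hq; omega
  have hex : ∃ n, ∀ q, Btw a q b → d q (π q) ≤ n := ⟨_, hbd⟩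
  have h1 := Nat.find_spec hex
  have h2 := fun m => @Nat.find_min _ _ hex m
  generalize Nat.find hex = D at *
  suffices H : D ≤ (2 * s + C) + s * (24 * (2 * s + C) + 24 * s) from
    ⟨π p, (hπ p).1, (h1 p hp).trans H⟩
  rcases Nat.eq_zero_or_pos D with rfl | hD
  · omega
  have h3 := h2 (D - 1) (by omega)
  push Not at h3
  obtain ⟨q, hq, hq'⟩ := h3
  have hqD : ∀ y, P y = y → D ≤ d q y := fun y hy => by
    have := (hπ q).2 y hy; omega
  apply log_bound
  intro k hk
  obtain ⟨u0, hu0, hu0'⟩ := exists_btw q a (min (2 * D) (d q a)) (min_le_right _ _)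
  obtain ⟨v0, hv0, hv0'⟩ := exists_btw q b (min (2 * D) (d q b)) (min_le_right _ _)
  have hu1 : Btw a u0 b := (Btw.trans_left hu0.symm hq).1
  have hv1 : Btw a v0 b := (Btw.trans_right hq hv0).1
  have hq1 : Btw u0 q v0 := by
    have e1 := (Btw.trans_left hu0.symm hq).2
    exact (Btw.trans_right e1 hv0).2
  have du := h1 u0 hu1
  have dv := h1 v0 hv1
  -- points on the two legs are far from `q`
  have leg : ∀ (w0 e : X), P e = e → Btw q w0 e → d q w0 = min (2 * D) (d q e) →
      d w0 (π w0) ≤ D → ∀ z, Btw w0 z (π w0) → D ≤ d q z := by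
    intro w0 e he hw hw' hd z hz
    rcases le_total (2 * D) (d q e) with hc | hc
    · rw [min_eq_left hc] at hw'
      unfold QIB.Btw at hz
      have := d_tri q z w0; have := d_comm z w0
      omega
    · rw [min_eq_right hc] at hw'
      have e1 : w0 = e := by
        unfold QIB.Btw at hw
        exact eq_of_d _ _ (by omega)
      subst e1
      have e2 := (hπ w0).2 w0 he
      rw [d_self] at e2
      have e3 : z = w0 := by
        unfold QIB.Btw at hz
        exact (eq_of_d _ _ (by omega)).symm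
      rw [e3]; exact hqD _ he
  obtain ⟨z, hz, hz'⟩ := h u0 v0 (π u0) q hq1
  rcases hz with hz | hz
  · have := leg u0 a ha hu0 hu0' du z hz
    omega
  obtain ⟨w, hw, hw'⟩ := h (π u0) v0 (π v0) z hz
  have t1 := d_tri q z w
  rcases hw with hw | hw
  swap
  · have := leg v0 b hb hv0 hv0' dv w hw.symm
    omega
  obtain ⟨γ, hγ⟩ := exists_geod (π u0) (π v0)
  have hlen : d (π u0) (π v0) ≤ 6 * D := by
    have := d_tri (π u0) u0 (π v0); have := d_tri u0 v0 (π v0)
    have := d_comm (π u0) u0; have := d_comm u0 q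
    unfold QIB.Btw at hq1
    omega
  obtain ⟨i, hi, hi'⟩ := bisect h k C (fun i => P (γ i)) (by
    intro i _
    have e1 := hγ.d_succ i
    rcases Nat.eq_zero_or_pos (d (γ i) (γ (i + 1))) with e2 | e2
    · rw [eq_of_d _ _ e2, d_self]; omega
    · exact hL _ _ (by omega)) w (by
      rw [hγ.1, hγ.2.1 _ (by omega), (hπ u0).1, (hπ v0).1]
      exact hw)
  have := hqD (P (γ i)) (hP _)
  have := d_tri q w (P (γ i))
  omega

/-- If the position along `[a, b]` moves by more than `δ` from `y` to `y'`, then the geodesic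
from `y` to `y'` comes close to `[a, b]`. -/
theorem cross {δ : ℕ} (h : Hyp X δ) (a b y y' : X)
    (hc : d a y + d y' b + δ < d a y' + d y b) :
    ∃ z, Btw y z y' ∧ d a z + d z b ≤ d a b + 3 * δ + 1 := by
  have t1 := d_tri a y y'; have t2 := d_tri y a y'; have t3 := d_tri y y' a
  have c1 := d_comm a y; have c2 := d_comm a y'; have c3 := d_comm y y'
  obtain ⟨z, hz, hz'⟩ := exists_btw y y' ((d a y + d y y' - d a y') / 2) (by omega)
  refine ⟨z, hz, ?_⟩
  unfold QIB.Btw at hz
  have h1 := h a y' y b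
  have h2 := h a z y y'
  have h3 := h b z y y'
  have := d_comm z y; have := d_comm z b; have := d_comm b y; have := d_comm b y'
  have := d_comm z y'
  have t4 := d_tri y b y'; have t5 := d_tri y y' b
  omega

/-- Linear escape: a Lipschitz path that leaves its starting point at linear speed has, beyond any
time, a point that is coarsely between the start and a much later point. -/
theorem escape {δ : ℕ} (h : Hyp X δ) (x : ℕ → X) (L E n0 : ℕ)
    (hL : ∀ i, d (x i) (x (i + 1)) ≤ L) (hE : ∀ n, n0 ≤ n → n ≤ E * d (x 0) (x n)) :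
    ∃ D, ∀ N, ∃ n m, N ≤ n ∧ n + N ≤ m ∧
      d (x 0) (x n) + d (x n) (x m) ≤ d (x 0) (x m) + D := by
  have hlip : ∀ i j, d (x i) (x (i + j)) ≤ L * j := by
    intro i j
    induction j with
    | zero => simp [d_self]
    | succ j ih =>
      have := d_tri (x i) (x (i + j)) (x (i + j + 1))
      have := hL (i + j)
      rw [Nat.mul_succ, ← add_assoc]; omega
  set k := E * δ + 1 with hk
  refine ⟨3 * δ + 1 + 2 * (2 * δ * k + L), fun N => ?_⟩
  by_contra hcon
  push Not at hcon
  set J := 4 * E * L * N + n0 + 1 with hJ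
  set m := N + J * 2 ^ k + N with hm
  have block : ∀ j, j < J → d (x 0) (x (N + (j + 1) * 2 ^ k)) + d (x (N + j * 2 ^ k)) (x m) ≤
      d (x 0) (x (N + j * 2 ^ k)) + d (x (N + (j + 1) * 2 ^ k)) (x m) + δ := by
    intro j hj
    by_contra hc
    push Not at hc
    obtain ⟨z, hz, hz'⟩ := cross h (x 0) (x m) _ _ hc
    obtain ⟨i, hi, hi'⟩ := bisect (slim_of_hyp h) k L (fun i => x (N + j * 2 ^ k + i))
      (fun i _ => hL _) z (by
        simp only [add_zero]
        rw [show N + j * 2 ^ k + 2 ^ k = N + (j + 1) * 2 ^ k by ring]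
        exact hz)
    have e1 : (j + 1) * 2 ^ k ≤ J * 2 ^ k := Nat.mul_le_mul_right _ hj
    have e2 := hcon (N + j * 2 ^ k + i) m (by omega) (by
      rw [Nat.succ_mul] at e1; omega)
    have := d_tri (x 0) z (x (N + j * 2 ^ k + i))
    have := d_tri (x (N + j * 2 ^ k + i)) z (x m)
    have := d_comm z (x (N + j * 2 ^ k + i))
    omega
  have tele : ∀ j, j ≤ J → d (x 0) (x (N + j * 2 ^ k)) + d (x N) (x m) ≤
      d (x 0) (x N) + d (x (N + j * 2 ^ k)) (x m) + j * δ := by
    intro j
    induction j with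
    | zero => intro _; simp
    | succ j ih =>
      intro hj
      have e1 := ih (by omega)
      have e2 := block j (by omega)
      rw [Nat.succ_mul j δ]
      omega
  have e1 := tele J le_rfl
  have e2 := hlip 0 N
  have e3 := hlip (N + J * 2 ^ k) N
  rw [zero_add] at e2
  rw [← hm] at e3
  have e4 := d_tri (x 0) (x (N + J * 2 ^ k)) (x m)
  have e5 := d_tri (x 0) (x N) (x m)
  have e6 : 2 * d (x 0) (x m) ≤ 4 * (L * N) + J * δ := by omega
  have e7 : k < 2 ^ k := Nat.lt_two_pow_self
  have e8 : J * k ≤ J * 2 ^ k := Nat.mul_le_mul_left _ e7.le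
  have e9 : J ≤ J * k := Nat.le_mul_of_pos_right _ (by omega)
  have e10 := hE m (by omega)
  have e11 : E * (2 * d (x 0) (x m)) ≤ E * (4 * (L * N) + J * δ) := Nat.mul_le_mul_left _ e6
  have e12 : J * k = E * (J * δ) + J := by rw [hk]; ring
  have e13 : E * (4 * (L * N) + J * δ) = 4 * E * L * N + E * (J * δ) := by ring
  have e14 : E * (2 * d (x 0) (x m)) = 2 * (E * d (x 0) (x m)) := by ring
  omega

/-- In a tree a point of a geodesic lies on the geodesic between two consecutive points of any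
chain joining the ends. -/
theorem chain_cover (h : Slim X 0) (y : ℕ → X) (n : ℕ) (p : X) (hp : Btw (y 0) p (y (n + 1))) :
    ∃ i, i ≤ n ∧ Btw (y i) p (y (i + 1)) := by
  induction n with
  | zero => exact ⟨0, le_rfl, hp⟩
  | succ n ih =>
    obtain ⟨q, hq, hq'⟩ := h _ _ (y (n + 1)) p hp
    obtain rfl := eq_of_d p q (by omega)
    rcases hq with hq | hq
    · obtain ⟨i, hi, hi'⟩ := ih hq
      exact ⟨i, by omega, hi'⟩
    · exact ⟨n + 1, le_rfl, hq⟩

/-- The image of a geodesic under a Lipschitz map into a tree comes close to every point of the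
geodesic between the images of the ends. -/
theorem image_near {Y : Type} [GSp Y] (h : Slim Y 0) (f : X → Y) (K : ℕ)
    (hf : ∀ x y, d (f x) (f y) ≤ K * d x y) (x y : X) (p : Y) (hp : Btw (f x) p (f y)) :
    ∃ q, Btw x q y ∧ d (f q) p ≤ K := by
  obtain ⟨γ, hγ⟩ := exists_geod x y
  obtain ⟨i, _, hi⟩ := chain_cover h (fun i => f (γ i)) (d x y) p (by
    rw [hγ.1, hγ.2.1 _ (by omega)]; exact hp)
  refine ⟨γ i, hγ.btw i, ?_⟩
  have e1 := hf (γ i) (γ (i + 1))
  have e2 := Nat.mul_le_mul_left K (hγ.d_succ i)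
  unfold QIB.Btw at hi
  omega

/-- Two points of a geodesic of a tree are as far apart as their positions. -/
theorem btw_order (h : Slim X 0) {x y p q : X} (hp : Btw x p y) (hq : Btw x q y) :
    Btw x p q ∨ Btw x q p := by
  obtain ⟨z, hz, hz'⟩ := h x y q p hp
  obtain rfl := eq_of_d p z (by omega)
  rcases hz with hz | hz
  · exact Or.inl hz
  · exact Or.inr (Btw.trans_right hq hz).2

/-- A bi-Lipschitz map of a tree coarsely preserves medians. -/
theorem median_qi (h : Slim X 0) (f : X → X) (K : ℕ)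
    (hf : ∀ x y, d (f x) (f y) ≤ K * d x y) (hf' : ∀ x y, d x y ≤ K * d (f x) (f y))
    {x y z m m' : X} (h1 : Btw x m y) (h2 : Btw x m z) (h3 : Btw y m z)
    (h1' : Btw (f x) m' (f y)) (h2' : Btw (f x) m' (f z)) (h3' : Btw (f y) m' (f z)) :
    d (f m) m' ≤ K * (K * (2 * K)) + K := by
  obtain ⟨p1, hp1, e1⟩ := image_near h f K hf x y m' h1'
  obtain ⟨p2, hp2, e2⟩ := image_near h f K hf x z m' h2'
  obtain ⟨p3, hp3, e3⟩ := image_near h f K hf y z m' h3'
  have a12 : d p1 p2 ≤ K * (2 * K) := by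
    have := d_tri (f p1) m' (f p2); have := d_comm m' (f p2)
    exact (hf' p1 p2).trans (Nat.mul_le_mul_left _ (by omega))
  have a13 : d p1 p3 ≤ K * (2 * K) := by
    have := d_tri (f p1) m' (f p3); have := d_comm m' (f p3)
    exact (hf' p1 p3).trans (Nat.mul_le_mul_left _ (by omega))
  have key : d m p1 ≤ K * (2 * K) := by
    rcases btw_order h hp1 h1 with hc | hc
    · have e4 := (Btw.trans_left hc h1).2
      have e5 := (Btw.trans_left hc h2).2
      unfold QIB.Btw at *
      have := d_tri p1 p3 y; have := d_tri p1 p3 z; have := d_comm y p3; have := d_comm m y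
      have := d_comm m p1
      omega
    · have e4 := (Btw.trans_left hc hp1).2
      unfold QIB.Btw at *
      have := d_tri x p2 p1; have := d_tri p1 p2 z; have := d_comm p1 p2
      have := d_tri y p1 z; have := d_comm m y; have := d_comm y p1
      omega
  have := d_tri (f m) (f p1) m'
  have := (hf m p1).trans (Nat.mul_le_mul_left K key)
  omega

end Pool.Agent.Work.MP_46c206_al
end

-- merged part: Pool.Agent.Work.MP_46c206_al.Tree
section
/-!
Geometry of a metric simplicial tree.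
-/

namespace Pool.Agent.Work.MP_46c206_al

open Pool.Agent.QIB SimpleGraph

/-- Medians in a graph that is `0`-slim and bipartite. -/
theorem exists_median {X : Type} [GSp X] (h : Slim X 0)
    (hb : ∀ x u v : X, d u v = 1 → d x u ≠ d x v) (x y z : X) :
    ∃ m, Btw x m y ∧ Btw x m z ∧ Btw y m z := by
  classical
  obtain ⟨γ, hγ⟩ := exists_geod x y
  have hex : ∃ i, Btw z (γ i) y := ⟨d x y, by rw [hγ.2.1 _ le_rfl]; exact btw_right z y⟩
  have h1 := Nat.find_spec hex
  have h2 := fun m => @Nat.find_min _ _ hex m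
  have h3 := Nat.find_min' hex (m := d x y) (by rw [hγ.2.1 _ le_rfl]; exact btw_right z y)
  generalize Nat.find hex = i at *
  refine ⟨γ i, hγ.btw i, ?_, h1.symm⟩
  cases i with
  | zero => rw [hγ.1]; exact btw_left x z
  | succ i =>
    have h4 := h2 i (by omega)
    obtain ⟨q, hq, hq'⟩ := h x y z (γ i) (hγ.btw i)
    obtain rfl := eq_of_d (γ i) q (by omega)
    have h5 := hq.resolve_right h4
    have e1 := hγ.d_left (i := i) (by omega)
    have e2 := hγ.d_left h3
    have e3 := hγ.d_right (i := i) (by omega)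
    have e4 := hγ.d_right h3
    have e5 := hγ.2.2 i (i + 1) (by omega) h3
    have e6 := hb z (γ i) (γ (i + 1)) (by omega)
    have t1 := d_tri z (γ i) (γ (i + 1)); have t2 := d_tri z (γ (i + 1)) (γ i)
    have := d_comm (γ i) (γ (i + 1)); have := d_comm z (γ i); have := d_comm z (γ (i + 1))
    unfold QIB.Btw at *
    omega

namespace FreeTree

variable {F : Type} [Group F] (T : FreeTree F)

noncomputable instance : GSp T.V where
  d x y := T.Γ.dist x y
  d_self _ := SimpleGraph.dist_self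
  d_comm _ _ := SimpleGraph.dist_comm
  d_tri _ _ _ := T.tree.connected.dist_triangle
  eq_of_d _ _ h := T.tree.connected.dist_eq_zero_iff.1 h
  step x y n h := by
    obtain ⟨p, hp⟩ := T.tree.connected.exists_walk_length_eq_dist x y
    cases p with
    | nil => rw [h] at hp; simp at hp
    | cons ha q =>
      rename_i z
      refine ⟨z, dist_eq_one_iff_adj.2 ha, ?_⟩
      have e1 := dist_le q
      have e2 := T.tree.connected.dist_triangle (u := x) (v := z) (w := y)
      have e3 := dist_eq_one_iff_adj.2 ha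
      rw [Walk.length_cons] at hp
      omega

theorem d_def (x y : T.V) : d x y = T.Γ.dist x y := rfl

/-- The path between two vertices. -/
noncomputable def path (u v : T.V) : T.Γ.Walk u v := (T.tree.existsUnique_path u v).exists.choose

theorem path_isPath (u v : T.V) : (T.path u v).IsPath :=
  (T.tree.existsUnique_path u v).exists.choose_spec

theorem eq_path {u v : T.V} {w : T.Γ.Walk u v} (hw : w.IsPath) : w = T.path u v :=
  (T.tree.existsUnique_path u v).unique hw (T.path_isPath u v)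

theorem tdist_def (u v : T.V) : T.tdist u v = ((T.path u v).edges.map T.len).sum := rfl

theorem path_length (u v : T.V) : (T.path u v).length = d u v := by
  obtain ⟨p, h1, h2⟩ := T.tree.connected.exists_path_of_dist u v
  rw [← T.eq_path h1, h2]; rfl

theorem path_append {u p v : T.V} (h : Btw u p v) :
    (T.path u p).append (T.path p v) = T.path u v := by
  apply T.eq_path
  apply Walk.isPath_of_length_eq_dist
  rw [Walk.length_append, path_length, path_length]
  exact h

theorem btw_iff {u p v : T.V} : Btw u p v ↔ p ∈ (T.path u v).support := by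
  classical
  constructor
  · intro h
    rw [← T.path_append h, Walk.mem_support_append_iff]
    exact Or.inl (Walk.end_mem_support _)
  · intro h
    have e1 := congrArg Walk.length (Walk.take_spec (T.path u v) h)
    rw [Walk.length_append, path_length] at e1
    have e2 := dist_le ((T.path u v).takeUntil p h)
    have e3 := dist_le ((T.path u v).dropUntil p h)
    have e4 := d_tri u p v
    rw [← d_def] at e2 e3
    unfold QIB.Btw
    omega

theorem slim : Slim T.V 0 := by
  classical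
  intro x y z p hp
  refine ⟨p, ?_, by rw [d_self]⟩
  rw [btw_iff] at hp
  rw [btw_iff, btw_iff, ← Walk.mem_support_append_iff]
  rw [← T.eq_path (Walk.bypass_isPath ((T.path x z).append (T.path z y)))] at hp
  exact Walk.support_bypass_subset_support _ hp

theorem bip (x u v : T.V) (h : d u v = 1) : d x u ≠ d x v := by
  by_cases hc : Btw x u v
  · unfold QIB.Btw at hc; omega
  · rw [btw_iff] at hc
    have ha : T.Γ.Adj v u := (dist_eq_one_iff_adj.1 h).symm
    have e := congrArg Walk.length (T.eq_path ((T.path_isPath x v).concat hc ha))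
    rw [Walk.length_concat, path_length, path_length] at e
    omega

theorem median (x y z : T.V) : ∃ m, Btw x m y ∧ Btw x m z ∧ Btw y m z :=
  exists_median T.slim T.bip x y z

theorem tdist_add {u p v : T.V} (h : Btw u p v) : T.tdist u v = T.tdist u p + T.tdist p v := by
  rw [tdist_def, tdist_def, tdist_def, ← T.path_append h, Walk.edges_append, List.map_append,
    List.sum_append]

theorem tdist_nonneg (u v : T.V) : 0 ≤ T.tdist u v := by
  rw [tdist_def]
  apply List.sum_nonneg
  intro x hx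
  obtain ⟨e, he, rfl⟩ := List.mem_map.1 hx
  induction e using Sym2.ind with
  | _ a b => exact (T.len_pos a b (Walk.adj_of_mem_edges _ he)).le

theorem tdist_self (u : T.V) : T.tdist u u = 0 := by
  rw [tdist_def, ← T.eq_path Walk.IsPath.nil]; simp

theorem tdist_comm (u v : T.V) : T.tdist u v = T.tdist v u := by
  rw [tdist_def, tdist_def, ← T.eq_path (T.path_isPath u v).reverse, Walk.edges_reverse,
    List.map_reverse, List.sum_reverse]

theorem tdist_pos {u v : T.V} (h : d u v = 1) : 0 < T.tdist u v := by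
  have ha : T.Γ.Adj u v := dist_eq_one_iff_adj.1 h
  rw [tdist_def, ← T.eq_path (w := Walk.cons ha Walk.nil) (by simp [ha.ne])]
  simpa using T.len_pos u v ha

theorem tdist_tri (u v w : T.V) : T.tdist u w ≤ T.tdist u v + T.tdist v w := by
  obtain ⟨m, h1, h2, h3⟩ := T.median u v w
  rw [T.tdist_add h1, T.tdist_add h2, T.tdist_add h3]
  have := T.tdist_nonneg m v; have := T.tdist_nonneg v m
  linarith

/-- The action of a group element as a graph homomorphism. -/
def hom (g : F) : T.Γ →g T.Γ := ⟨T.act g, fun h => T.adj_act g _ _ h⟩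

theorem path_map (g : F) (u v : T.V) :
    (T.path u v).map (T.hom g) = T.path (T.act g u) (T.act g v) :=
  T.eq_path ((T.path_isPath u v).map (T.act g).injective)

theorem d_act (g : F) (u v : T.V) : d (T.act g u) (T.act g v) = d u v := by
  rw [← path_length, ← path_length, ← path_map]
  exact Walk.length_map _ _

theorem tdist_act (g : F) (u v : T.V) : T.tdist (T.act g u) (T.act g v) = T.tdist u v := by
  have e : (T.path (T.act g u) (T.act g v)).edges =
      (T.path u v).edges.map (Sym2.map (T.hom g)) := by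
    rw [← path_map]
    exact Walk.edges_map _ _
  rw [tdist_def, tdist_def, e, List.map_map]
  congr 1
  apply List.map_congr_left
  intro e he
  induction e using Sym2.ind with
  | _ a b => exact T.len_act g a b (Walk.adj_of_mem_edges _ he)

theorem btw_act (g : F) {u p v : T.V} (h : Btw u p v) :
    Btw (T.act g u) (T.act g p) (T.act g v) := by
  unfold QIB.Btw at *
  rw [d_act, d_act, d_act]; exact h

theorem finite_btw (u v : T.V) : {p | Btw u p v}.Finite :=
  (List.finite_toSet (T.path u v).support).subset fun _ hp => T.btw_iff.1 hp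

theorem tgp_comm (x u v : T.V) : T.tgp x u v = T.tgp x v u := by
  unfold tgp; rw [T.tdist_comm u v]; ring

theorem tgp_eq {x u v m : T.V} (h1 : Btw x m u) (h2 : Btw x m v) (h3 : Btw u m v) :
    T.tgp x u v = T.tdist x m := by
  unfold tgp
  rw [T.tdist_add h1, T.tdist_add h2, T.tdist_add h3, T.tdist_comm u m]; ring

theorem le_tgp {x u v m : T.V} (h1 : Btw x m u) (h2 : Btw x m v) :
    T.tdist x m ≤ T.tgp x u v := by
  unfold tgp
  have := T.tdist_tri u m v
  rw [T.tdist_add h1, T.tdist_add h2, T.tdist_comm u m] at *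
  linarith

theorem tgp_le {x u v y : T.V} (h : Btw u y v) : T.tgp x u v ≤ T.tdist x y := by
  unfold tgp
  have := T.tdist_tri x y u; have := T.tdist_tri x y v
  rw [T.tdist_add h, T.tdist_comm u y]
  linarith

theorem tgp_ultra (x u v w : T.V) : min (T.tgp x u v) (T.tgp x v w) ≤ T.tgp x u w := by
  obtain ⟨m, a1, a2, a3⟩ := T.median x u v
  obtain ⟨m', b1, b2, b3⟩ := T.median x v w
  rw [T.tgp_eq a1 a2 a3, T.tgp_eq b1 b2 b3]
  rcases btw_order T.slim a2 b1 with h | h
  · exact (min_le_left _ _).trans (T.le_tgp a1 (Btw.trans_left h b2).1)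
  · exact (min_le_right _ _).trans (T.le_tgp (Btw.trans_left h a1).1 b2)

end FreeTree

/-- An edge of a geodesic of a tree lies on one of the two other sides of a triangle. -/
theorem edge_slim {X : Type} [GSp X] (h : Slim X 0)
    (hm : ∀ x y z : X, ∃ m, Btw x m y ∧ Btw x m z ∧ Btw y m z) {u v y y' : X} (w : X)
    (h1 : Btw u y v) (h2 : Btw u y' v) (h3 : d y y' = 1) :
    (Btw u y w ∧ Btw u y' w) ∨ (Btw w y v ∧ Btw w y' v) := by
  obtain ⟨m, a1, a2, a3⟩ := hm u v w
  have left : ∀ z, Btw u z m → Btw u z w := fun z hz => (Btw.trans_left hz a2).1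
  have right : ∀ z, Btw u z v → Btw u m z → Btw w z v := fun z hz hz' =>
    (Btw.trans_right a3.symm (Btw.trans_left hz' hz).2).1
  have c := d_comm y y'
  rcases btw_order h h1 a1 with b1 | b1 <;> rcases btw_order h h2 a1 with b2 | b2
  · exact Or.inl ⟨left _ b1, left _ b2⟩
  · by_cases e : d y m = 0
    · obtain rfl := eq_of_d _ _ e
      exact Or.inr ⟨right _ h1 (btw_right _ _), right _ h2 b2⟩
    · have e' : d m y' = 0 := by
        have := d_tri u y y'
        unfold QIB.Btw at *; omega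
      obtain rfl := eq_of_d _ _ e'
      exact Or.inl ⟨left _ b1, a2⟩
  · by_cases e : d y' m = 0
    · obtain rfl := eq_of_d _ _ e
      exact Or.inr ⟨right _ h1 b1, right _ h2 (btw_right _ _)⟩
    · have e' : d m y = 0 := by
        have := d_tri u y' y
        unfold QIB.Btw at *; omega
      obtain rfl := eq_of_d _ _ e'
      exact Or.inl ⟨a2, left _ b2⟩
  · exact Or.inr ⟨right _ h1 b1, right _ h2 b2⟩

theorem edge_cover {X : Type} [GSp X] (h : Slim X 0)
    (hm : ∀ x y z : X, ∃ m, Btw x m y ∧ Btw x m z ∧ Btw y m z) (c : ℕ → X) (n : ℕ) {y y' : X}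
    (h1 : Btw (c 0) y (c n)) (h2 : Btw (c 0) y' (c n)) (h3 : d y y' = 1) :
    ∃ i, i < n ∧ Btw (c i) y (c (i + 1)) ∧ Btw (c i) y' (c (i + 1)) := by
  induction n with
  | zero =>
    rw [h1.eq_of_self, h2.eq_of_self, d_self] at h3
    omega
  | succ n ih =>
    rcases edge_slim h hm (c n) h1 h2 h3 with hc | hc
    · obtain ⟨i, hi, hi'⟩ := ih hc.1 hc.2
      exact ⟨i, by omega, hi'⟩
    · exact ⟨n, by omega, hc⟩

end Pool.Agent.Work.MP_46c206_al
end

-- merged part: Pool.Agent.Work.MP_46c206_al.Free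
section
/-!
The Cayley tree of a free group.
-/

namespace Pool.Agent.Work.MP_46c206_al

open Pool.Agent.QIB FreeGroup

section lcp
variable {β : Type} [DecidableEq β]

/-- Length of the longest common initial segment. -/
def lcp : List β → List β → ℕ
  | a :: l, b :: m => if a = b then lcp l m + 1 else 0
  | _, _ => 0

@[simp] theorem lcp_nil_left (m : List β) : lcp [] m = 0 := by cases m <;> rfl
@[simp] theorem lcp_nil_right (m : List β) : lcp m [] = 0 := by cases m <;> rfl
theorem lcp_cons (a b : β) (l m : List β) :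
    lcp (a :: l) (b :: m) = if a = b then lcp l m + 1 else 0 := rfl

theorem lcp_ultra : ∀ l m n : List β, min (lcp l m) (lcp m n) ≤ lcp l n
  | [], _, _ => by simp
  | _ :: _, [], _ => by simp
  | _ :: _, _ :: _, [] => by simp
  | a :: l, b :: m, c :: n => by
    have := lcp_ultra l m n
    rw [lcp_cons, lcp_cons, lcp_cons]
    by_cases h1 : a = b
    · by_cases h2 : b = c
      · subst h1; subst h2; simp only [if_true]; omega
      · simp [h2]
    · simp [h1]

theorem lcp_take : ∀ (l : List β) (k : ℕ), k ≤ l.length → lcp (l.take k) l = k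
  | _, 0, _ => by simp
  | [], k + 1, h => by simp at h
  | a :: l, k + 1, h => by
    rw [List.take_succ_cons, lcp_cons, if_pos rfl, lcp_take l k (by simpa using h)]

end lcp

variable {α : Type} [DecidableEq α]

theorem norm_invRev_append : ∀ L M : List (α × Bool), IsReduced L → IsReduced M →
    (FreeGroup.mk (invRev L ++ M)).norm + 2 * lcp L M = L.length + M.length
  | [], M, _, hM => by
    simp [FreeGroup.norm, hM.reduce_eq]
  | a :: L, [], hL, _ => by
    have : FreeGroup.mk (invRev (a :: L) ++ []) = (FreeGroup.mk (a :: L))⁻¹ := by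
      rw [List.append_nil, inv_mk]
    rw [this, norm_inv_eq]
    simp only [FreeGroup.norm, toWord_mk, hL.reduce_eq]
    simp
  | a :: L, b :: M, hL, hM => by
    by_cases h : a = b
    · subst h
      have h1 := norm_invRev_append L M (List.IsChain.tail hL) (List.IsChain.tail hM)
      have h2 : FreeGroup.mk (invRev (a :: L) ++ a :: M) = FreeGroup.mk (invRev L ++ M) := by
        have e1 : FreeGroup.mk (a :: L) = FreeGroup.mk [a] * FreeGroup.mk L := by
          rw [mul_mk]; rfl
        have e2 : FreeGroup.mk (a :: M) = FreeGroup.mk [a] * FreeGroup.mk M := by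
          rw [mul_mk]; rfl
        rw [← mul_mk, ← mul_mk, ← inv_mk, ← inv_mk, e1, e2]
        group
      rw [h2, lcp_cons, if_pos rfl]
      simp only [List.length_cons]
      omega
    · have hr : IsReduced (invRev (a :: L) ++ b :: M) := by
        have h1 : IsReduced (invRev (a :: L)) := by
          rw [isReduced_iff_reduce_eq, reduce_invRev, hL.reduce_eq]
        have h3 : invRev (a :: L) = invRev L ++ [(a.1, !a.2)] := by
          simp [invRev]
        have h4 : IsReduced ([(a.1, !a.2)] ++ b :: M) := by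
          change IsReduced ((a.1, !a.2) :: b :: M)
          rw [isReduced_cons_cons]
          refine ⟨fun h5 => ?_, hM⟩
          by_contra h6
          apply h
          obtain ⟨a1, a2⟩ := a
          obtain ⟨b1, b2⟩ := b
          simp only at h5 h6
          subst h5
          cases a2 <;> cases b2 <;> simp_all
        rw [h3] at h1 ⊢
        exact IsReduced.append_overlap h1 h4 (by simp)
      rw [lcp_cons, if_neg h]
      simp only [FreeGroup.norm, toWord_mk, hr.reduce_eq]
      simp [invRev]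
      omega

/-- Gromov product at the identity, in the free group. -/
def gf (x y : FreeGroup α) : ℕ := lcp x.toWord y.toWord

theorem norm_gf (x y : FreeGroup α) : (x⁻¹ * y).norm + 2 * gf x y = x.norm + y.norm := by
  have := norm_invRev_append x.toWord y.toWord isReduced_toWord isReduced_toWord
  rw [← mul_mk, ← inv_mk, mk_toWord, mk_toWord] at this
  exact this

theorem gf_ultra (x y z : FreeGroup α) : min (gf x y) (gf y z) ≤ gf x z := lcp_ultra _ _ _

theorem norm_inv_mul_comm (x y : FreeGroup α) : (y⁻¹ * x).norm = (x⁻¹ * y).norm := by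
  rw [← norm_inv_eq]; simp

theorem gf_comm (x y : FreeGroup α) : gf x y = gf y x := by
  have h1 := norm_gf x y
  have h2 := norm_gf y x
  have h3 := norm_inv_mul_comm x y
  omega

theorem gf_le_left (x y : FreeGroup α) : gf x y ≤ x.norm := by
  have h1 := norm_gf x y
  have h2 := norm_mul_le x (x⁻¹ * y)
  rw [mul_inv_cancel_left] at h2
  omega

theorem gf_le_right (x y : FreeGroup α) : gf x y ≤ y.norm := by
  rw [gf_comm]; exact gf_le_left y x

theorem exists_initial (x : FreeGroup α) (k : ℕ) (hk : k ≤ x.norm) :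
    ∃ p : FreeGroup α, p.norm = k ∧ gf p x = k := by
  have hr : IsReduced (x.toWord.take k) :=
    List.IsChain.take (isReduced_toWord (x := x)) k
  refine ⟨FreeGroup.mk (x.toWord.take k), ?_, ?_⟩
  · simp only [FreeGroup.norm, toWord_mk, hr.reduce_eq, List.length_take]
    exact min_eq_left hk
  · simp only [gf, toWord_mk, hr.reduce_eq]
    exact lcp_take _ _ hk

noncomputable instance freeGSp : GSp (FreeGroup α) where
  d x y := (x⁻¹ * y).norm
  d_self x := by simp
  d_comm x y := (norm_inv_mul_comm x y).symm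
  d_tri x y z := by
    have := norm_mul_le (x⁻¹ * y) (y⁻¹ * z)
    rwa [show x⁻¹ * y * (y⁻¹ * z) = x⁻¹ * z by group] at this
  eq_of_d x y h := by
    rw [FreeGroup.norm_eq_zero] at h
    exact inv_mul_eq_one.1 h
  step x y n h := by
    obtain ⟨p, hp, hp'⟩ := exists_initial (x⁻¹ * y) 1 (by omega)
    refine ⟨x * p, by simpa using hp, ?_⟩
    have := norm_gf p (x⁻¹ * y)
    rw [mul_inv_rev, mul_assoc]
    omega

theorem d_free (x y : FreeGroup α) : d x y = (x⁻¹ * y).norm := rfl

theorem d_one_free (x : FreeGroup α) : d 1 x = x.norm := by rw [d_free]; simp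

theorem d_mul_free (g x y : FreeGroup α) : d (g * x) (g * y) = d x y := by
  rw [d_free, d_free]; congr 1; group

theorem d_gf (x y : FreeGroup α) : d x y + 2 * gf x y = x.norm + y.norm := norm_gf x y

theorem hyp_free : Hyp (FreeGroup α) 0 := by
  intro x y z w
  have h1 := d_gf (w⁻¹ * x) (w⁻¹ * y)
  have h2 := d_gf (w⁻¹ * x) (w⁻¹ * z)
  have h3 := d_gf (w⁻¹ * z) (w⁻¹ * y)
  have h4 := gf_ultra (w⁻¹ * x) (w⁻¹ * z) (w⁻¹ * y)
  rw [d_mul_free] at h1 h2 h3
  simp only [← d_free] at h1 h2 h3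
  have := d_comm w x; have := d_comm w y; have := d_comm w z; have := d_comm z y
  omega

theorem slim_free : Slim (FreeGroup α) 0 := slim_of_hyp hyp_free

/-- The median of `1`, `x`, `y`. -/
theorem exists_med (x y : FreeGroup α) :
    ∃ m : FreeGroup α, m.norm = gf x y ∧ Btw 1 m x ∧ Btw 1 m y ∧ Btw x m y := by
  obtain ⟨m, hm, hm'⟩ := exists_initial x (gf x y) (gf_le_left x y)
  have h1 := gf_ultra m x y
  have h2 := gf_le_left m y
  have h3 := d_gf m x
  have h4 := d_gf m y
  have h5 := d_gf x y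
  have := d_comm x m
  refine ⟨m, hm, ?_, ?_, ?_⟩ <;> unfold QIB.Btw
  · rw [d_one_free, d_one_free]; omega
  · rw [d_one_free, d_one_free]; omega
  · omega

/-- The chosen median of `1`, `x`, `y`. -/
noncomputable def med (x y : FreeGroup α) : FreeGroup α := (exists_med x y).choose

theorem med_spec (x y : FreeGroup α) :
    (med x y).norm = gf x y ∧ Btw 1 (med x y) x ∧ Btw 1 (med x y) y ∧ Btw x (med x y) y :=
  (exists_med x y).choose_spec

theorem norm_mk_letter (t : α × Bool) : (mk [t] : FreeGroup α).norm = 1 := by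
  simp [FreeGroup.norm]

theorem norm_letter_pow (t : α × Bool) (k : ℕ) : ((mk [t] : FreeGroup α) ^ k).norm = k := by
  obtain ⟨a, b⟩ := t
  cases b
  · have : (mk [(a, false)] : FreeGroup α) = (of a)⁻¹ := by
      rw [FreeGroup.of, inv_mk]; simp [invRev]
    rw [this, inv_pow, norm_inv_eq, norm_of_pow]
  · exact norm_of_pow a k

theorem toWord_letter_pow (t : α × Bool) (k : ℕ) :
    ((mk [t] : FreeGroup α) ^ k).toWord = List.replicate k t := by
  rw [toWord_pow, toWord_mk, reduce_singleton, List.flatten_replicate_singleton, reduce_replicate]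

/-- Powers of a letter that is not the first letter of `g⁻¹` extend `g`. -/
theorem norm_mul_letter_pow (g : FreeGroup α) (t : α × Bool) (ht : g⁻¹.toWord.head? ≠ some t)
    (k : ℕ) : (g * (mk [t]) ^ k).norm = g.norm + k := by
  have h1 := norm_gf g⁻¹ ((mk [t]) ^ k)
  have h2 : gf g⁻¹ ((mk [t] : FreeGroup α) ^ k) = 0 := by
    unfold gf
    rw [toWord_letter_pow]
    cases k with
    | zero => simp
    | succ k =>
      rw [List.replicate_succ]
      cases hw : g⁻¹.toWord with
      | nil => simp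
      | cons a l =>
        rw [hw] at ht
        rw [lcp_cons, if_neg]
        intro h
        exact ht (by simp [h])
  rw [inv_inv, norm_inv_eq, norm_letter_pow, h2] at h1
  omega

theorem exists_extend [Nontrivial α] (g h : FreeGroup α) :
    ∃ t : FreeGroup α, ∀ k : ℕ, (t ^ k).norm = k ∧ (g * t ^ k).norm = g.norm + k ∧
      (h * t ^ k).norm = h.norm + k := by
  obtain ⟨a, b, hab⟩ := exists_pair_ne α
  have : ∃ t : α × Bool, g⁻¹.toWord.head? ≠ some t ∧ h⁻¹.toWord.head? ≠ some t := by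
    by_contra hc
    push Not at hc
    have e1 := hc (a, true); have e2 := hc (a, false); have e3 := hc (b, true)
    by_cases c1 : g⁻¹.toWord.head? = some (a, true)
    · have f2 := e2 (by rw [c1]; simp)
      have f3 := e3 (by rw [c1]; simp [hab])
      rw [f2] at f3; simp at f3
    · have f1 := e1 c1
      by_cases c2 : g⁻¹.toWord.head? = some (a, false)
      · have f3 := e3 (by rw [c2]; simp)
        rw [f1] at f3; simp [hab] at f3
      · have f2 := e2 c2
        rw [f1] at f2; simp at f2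
  obtain ⟨t, h1, h2⟩ := this
  exact ⟨mk [t], fun k => ⟨norm_letter_pow t k, norm_mul_letter_pow g t h1 k,
    norm_mul_letter_pow h t h2 k⟩⟩

theorem eq_letter_of_norm {g : FreeGroup α} (h : g.norm = 1) : ∃ t : α × Bool, g = mk [t] := by
  obtain ⟨t, ht⟩ := List.length_eq_one_iff.1 h
  exact ⟨t, by rw [← ht, mk_toWord]⟩

/-- A homomorphism from a free group of finite rank is Lipschitz. -/
theorem exists_lip [Finite α] {Y : Type} [GSp Y] (f : FreeGroup α → Y)
    (hf : ∀ g x y, d (f (g * x)) (f (g * y)) = d (f x) (f y)) :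
    ∃ L, ∀ x y, d (f x) (f y) ≤ L * d x y := by
  obtain ⟨L, hL⟩ := (Set.finite_range fun t : α × Bool => d (f 1) (f (mk [t]))).bddAbove
  refine ⟨L, lip_of_edge f L fun x y hxy => ?_⟩
  obtain ⟨t, ht⟩ := eq_letter_of_norm hxy
  have e := hf x 1 (x⁻¹ * y)
  rw [mul_one, mul_inv_cancel_left] at e
  rw [e, ht]
  exact hL ⟨t, rfl⟩

end Pool.Agent.Work.MP_46c206_al
end

-- merged part: Pool.Agent.Work.MP_46c206_al.Orbit
section
/-!
The orbit map of a free action on a tree compares the Gromov products.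
-/

namespace Pool.Agent.Work.MP_46c206_al

open Pool.Agent.QIB FreeGroup

variable {α : Type} [DecidableEq α] (T : FreeTree (FreeGroup α)) (x : T.V)

omit [DecidableEq α] in
theorem act_mul (g h : FreeGroup α) (v : T.V) : T.act (g * h) v = T.act g (T.act h v) := by
  rw [_root_.map_mul]; rfl

omit [DecidableEq α] in
theorem act_one (v : T.V) : T.act 1 v = v := by
  rw [_root_.map_one]; rfl

/-- A finite set whose translates cover the convex hull of the orbit. -/
def core : Set T.V := {y | y = x ∨ ∃ t : α × Bool, Btw x y (T.act (mk [t]) x)}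

omit [DecidableEq α] in
theorem core_finite [Finite α] : (core T x).Finite := by
  refine ((Set.finite_singleton x).union
    (Set.finite_iUnion fun t : α × Bool => T.finite_btw x (T.act (mk [t]) x))).subset ?_
  rintro y (h | ⟨t, h⟩)
  · exact Or.inl h
  · exact Or.inr (Set.mem_iUnion.2 ⟨t, h⟩)

omit [DecidableEq α] in
theorem self_mem_core (g : FreeGroup α) : T.act g⁻¹ (T.act g x) ∈ core T x := by
  rw [← act_mul, inv_mul_cancel, act_one]; exact Or.inl rfl

theorem mem_core_of_btw {g h : FreeGroup α} (hd : d g h ≤ 1) {y : T.V}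
    (hy : Btw (T.act g x) y (T.act h x)) : T.act g⁻¹ y ∈ core T x := by
  have h1 := T.btw_act g⁻¹ hy
  rw [← act_mul, ← act_mul, inv_mul_cancel, act_one] at h1
  rcases Nat.eq_zero_or_pos (d g h) with h0 | h0
  · obtain rfl := eq_of_d g h h0
    rw [inv_mul_cancel, act_one] at h1
    exact Or.inl h1.eq_of_self
  · obtain ⟨t, ht⟩ := eq_letter_of_norm (g := g⁻¹ * h) (by rw [← d_free]; omega)
    exact Or.inr ⟨t, ht ▸ h1⟩

theorem exists_chain (g h : FreeGroup α) {η : ℕ → T.V} (hη : IsGeod η (T.act g x) (T.act h x)) :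
    ∃ c : ℕ → FreeGroup α, c 0 = g ∧ c (d (T.act g x) (T.act h x) + 1) = h ∧
      ∀ i, i ≤ d (T.act g x) (T.act h x) →
        T.act (c i)⁻¹ (η i) ∈ core T x ∧ T.act (c (i + 1))⁻¹ (η i) ∈ core T x := by
  obtain ⟨γ, hγ⟩ := exists_geod g h
  have key : ∀ i, ∃ f : FreeGroup α, i < d (T.act g x) (T.act h x) →
      T.act f⁻¹ (η i) ∈ core T x ∧ T.act f⁻¹ (η (i + 1)) ∈ core T x := by
    intro i
    by_cases hi : i < d (T.act g x) (T.act h x)
    · obtain ⟨j, _, h1, h2⟩ := edge_cover T.slim T.median (fun j => T.act (γ j) x) (d g h)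
        (y := η i) (y' := η (i + 1))
        (by rw [hγ.1, hγ.2.1 _ le_rfl]; exact hη.btw i)
        (by rw [hγ.1, hγ.2.1 _ le_rfl]; exact hη.btw (i + 1))
        (by rw [hη.2.2 i (i + 1) (by omega) hi]; omega)
      exact ⟨γ j, fun _ => ⟨mem_core_of_btw T x (hγ.d_succ j) h1,
        mem_core_of_btw T x (hγ.d_succ j) h2⟩⟩
    · exact ⟨1, fun h => absurd h hi⟩
  choose H hH using key
  set n := d (T.act g x) (T.act h x) with hn
  refine ⟨fun i => match i with
    | 0 => g
    | i + 1 => if i < n then H i else h, rfl, by simp, fun i hi => ⟨?_, ?_⟩⟩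
  · cases i with
    | zero => rw [hη.1]; exact self_mem_core T x g
    | succ i =>
      simp only [show i < n by omega, if_true]
      exact (hH i (by omega)).2
  · by_cases hc : i < n
    · simp only [hc, if_true]
      exact (hH i hc).1
    · simp only [hc, if_false]
      rw [hη.2.1 i (by omega)]
      exact self_mem_core T x h

variable [Finite α]

omit [DecidableEq α] in
theorem exists_L : ∃ L : ℝ, 0 ≤ L ∧ ∀ y ∈ core T x, T.tdist x y ≤ L := by
  obtain ⟨L, hL⟩ := ((core_finite T x).image (T.tdist x)).bddAbove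
  exact ⟨L, (T.tdist_nonneg x x).trans (hL ⟨x, Or.inl rfl, rfl⟩), fun y hy => hL ⟨y, hy, rfl⟩⟩

omit [DecidableEq α] in
theorem exists_mu : ∃ μ : ℝ, 0 < μ ∧ ∀ y ∈ core T x, ∀ y' ∈ core T x, d y y' = 1 →
    μ ≤ T.tdist y y' := by
  have hf : {p : T.V × T.V | p.1 ∈ core T x ∧ p.2 ∈ core T x ∧ d p.1 p.2 = 1}.Finite :=
    ((core_finite T x).prod (core_finite T x)).subset fun p hp => ⟨hp.1, hp.2.1⟩
  rcases Set.eq_empty_or_nonempty
    {p : T.V × T.V | p.1 ∈ core T x ∧ p.2 ∈ core T x ∧ d p.1 p.2 = 1} with h | h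
  · exact ⟨1, one_pos, fun y hy y' hy' hd => absurd (h ▸ (show (y, y') ∈
      {p : T.V × T.V | p.1 ∈ core T x ∧ p.2 ∈ core T x ∧ d p.1 p.2 = 1} from ⟨hy, hy', hd⟩))
      (Set.notMem_empty _)⟩
  · obtain ⟨p, hp, hp'⟩ := Set.exists_min_image _ (fun p : T.V × T.V => T.tdist p.1 p.2) hf h
    exact ⟨_, T.tdist_pos hp.2.2, fun y hy y' hy' hd => hp' (y, y') ⟨hy, hy', hd⟩⟩

theorem exists_KA : ∃ KA : ℕ, ∀ (f f' : FreeGroup α) (y : T.V), T.act f⁻¹ y ∈ core T x →
    T.act f'⁻¹ y ∈ core T x → d f f' ≤ KA := by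
  have hf : {f : FreeGroup α | ∃ k ∈ core T x, T.act f k ∈ core T x}.Finite := by
    refine ((core_finite T x).biUnion fun k _ =>
      (core_finite T x).preimage (f := fun f : FreeGroup α => T.act f k) ?_).subset ?_
    · intro f _ f' _ h
      have := T.free (f'⁻¹ * f) k (by
        rw [act_mul, show T.act f k = T.act f' k from h, ← act_mul, inv_mul_cancel, act_one])
      exact (inv_mul_eq_one.1 this).symm
    · rintro f ⟨k, hk, hk'⟩
      exact Set.mem_biUnion hk hk'
  obtain ⟨KA, hK⟩ := (hf.image FreeGroup.norm).bddAbove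
  refine ⟨KA, fun f f' y h1 h2 => hK ⟨f⁻¹ * f', ⟨_, h2, ?_⟩, rfl⟩⟩
  rw [← act_mul, mul_assoc, mul_inv_cancel, mul_one]
  exact h1

omit [Finite α] in
theorem orbit_lip {L : ℝ} (hL : ∀ y ∈ core T x, T.tdist x y ≤ L) (g h : FreeGroup α) :
    T.tdist (T.act g x) (T.act h x) ≤ L * d g h := by
  suffices H : ∀ n, ∀ g : FreeGroup α, d g h = n → T.tdist (T.act g x) (T.act h x) ≤ L * n from
    H _ g rfl
  intro n
  induction n with
  | zero =>
    intro g hg
    obtain rfl := eq_of_d g h hg
    rw [T.tdist_self]; simp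
  | succ n ih =>
    intro g hg
    obtain ⟨z, h1, h2⟩ := GSp.step g h n hg
    have e1 := ih z h2
    have e2 := hL _ (mem_core_of_btw T x h1.le (btw_right _ _))
    rw [← T.tdist_act g, ← act_mul, mul_inv_cancel, act_one] at e2
    have := T.tdist_tri (T.act g x) (T.act z x) (T.act h x)
    push_cast
    linarith

theorem orbit_lower : ∃ lam C : ℝ, 0 < lam ∧ ∀ g : FreeGroup α,
    lam * g.norm - C ≤ T.tdist x (T.act g x) := by
  obtain ⟨μ, hμ, hμ'⟩ := exists_mu T x
  obtain ⟨KA, hK⟩ := exists_KA T x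
  refine ⟨μ / (KA + 1), μ, by positivity, fun g => ?_⟩
  obtain ⟨η, hη⟩ := exists_geod (T.act 1 x) (T.act g x)
  obtain ⟨c, c0, c1, hc⟩ := exists_chain T x 1 g hη
  set n := d (T.act 1 x) (T.act g x) with hn
  have h1 : ∀ i, i ≤ n + 1 → d (c 0) (c i) ≤ KA * i := by
    intro i
    induction i with
    | zero => intro _; rw [d_self]; omega
    | succ i ih =>
      intro hi
      have e1 := ih (by omega)
      have e2 := hK _ _ _ (hc i (by omega)).1 (hc i (by omega)).2
      have := d_tri (c 0) (c i) (c (i + 1))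
      rw [Nat.mul_succ]; omega
  have h2 : ∀ i, i ≤ n → μ * i ≤ T.tdist (η 0) (η i) := by
    intro i
    induction i with
    | zero => intro _; rw [T.tdist_self]; simp
    | succ i ih =>
      intro hi
      have e1 := ih (by omega)
      have e2 := hμ' _ (hc i (by omega)).2 _ (hc (i + 1) hi).1 (by
        rw [T.d_act, hη.2.2 i (i + 1) (by omega) hi]; omega)
      rw [T.tdist_act] at e2
      rw [T.tdist_add (hη.btw_btw (Nat.zero_le i) (Nat.le_succ i) hi)]
      push_cast
      linarith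
  have e1 := h1 (n + 1) le_rfl
  have e2 := h2 n le_rfl
  rw [c0, c1, d_one_free] at e1
  rw [hη.1, hη.2.1 n le_rfl, act_one] at e2
  have e3 : (g.norm : ℝ) ≤ (KA + 1) * (n + 1) := by
    have : (g.norm : ℝ) ≤ KA * (n + 1) := by exact_mod_cast e1
    have : (0 : ℝ) ≤ n + 1 := by positivity
    linarith
  have e4 : μ / (KA + 1) * g.norm ≤ μ * (n + 1) := by
    rw [div_mul_eq_mul_div, div_le_iff₀ (by positivity)]
    nlinarith
  linarith

theorem tgp_lower : ∃ lam C : ℝ, 0 < lam ∧ ∀ g h : FreeGroup α,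
    lam * gf g h - C ≤ T.tgp x (T.act g x) (T.act h x) := by
  obtain ⟨lam, C, h0, h1⟩ := orbit_lower T x
  obtain ⟨L, hL0, hL⟩ := exists_L T x
  refine ⟨lam, C + L, h0, fun g h => ?_⟩
  obtain ⟨m, a1, a2, a3⟩ := T.median x (T.act g x) (T.act h x)
  rw [T.tgp_eq a1 a2 a3]
  obtain ⟨γ, hγ⟩ := exists_geod g h
  obtain ⟨i, _, hi⟩ := chain_cover T.slim (fun i => T.act (γ i) x) (d g h) m (by
    rw [hγ.1, hγ.2.1 _ (by omega)]; exact a3)
  have e1 := hL _ (mem_core_of_btw T x (hγ.d_succ i) hi)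
  rw [← T.tdist_act (γ i), ← act_mul, mul_inv_cancel, act_one, T.tdist_comm] at e1
  have e2 := h1 (γ i)
  have e3 := T.tdist_tri x m (T.act (γ i) x)
  have e4 : gf g h ≤ (γ i).norm := by
    have b := hγ.btw i
    have := d_gf g h; have := d_gf g (γ i); have := d_gf (γ i) h
    have := gf_le_right g (γ i); have := gf_le_left (γ i) h
    unfold QIB.Btw at b
    omega
  have e5 : lam * gf g h ≤ lam * (γ i).norm :=
    mul_le_mul_of_nonneg_left (by exact_mod_cast e4) h0.le
  linarith

theorem tgp_upper : ∃ L C : ℝ, 0 ≤ L ∧ ∀ g h : FreeGroup α,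
    T.tgp x (T.act g x) (T.act h x) ≤ L * gf g h + C := by
  obtain ⟨L, hL0, hL⟩ := exists_L T x
  obtain ⟨KA, hK⟩ := exists_KA T x
  refine ⟨L, L * KA + L, hL0, fun g h => ?_⟩
  obtain ⟨η, hη⟩ := exists_geod (T.act g x) (T.act h x)
  obtain ⟨c, c0, c1, hc⟩ := exists_chain T x g h hη
  obtain ⟨m, hm, -, -, a3⟩ := exists_med g h
  obtain ⟨i, hi, hi'⟩ := chain_cover slim_free c _ m (by rw [c0, c1]; exact a3)
  have e1 := hK _ _ _ (hc i hi).1 (hc i hi).2
  have e2 := hL _ (hc i hi).1
  rw [← T.tdist_act (c i), ← act_mul, mul_inv_cancel, act_one] at e2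
  have e3 := T.tgp_le (x := x) (hη.btw i)
  have e4 := T.tdist_tri x (T.act (c i) x) (η i)
  have e5 := orbit_lip T x hL 1 (c i)
  rw [act_one] at e5
  have e6 : d 1 (c i) ≤ gf g h + KA := by
    have := d_tri 1 m (c i); have := d_comm m (c i)
    rw [d_one_free m] at *
    unfold QIB.Btw at hi'
    omega
  have e7 : L * d 1 (c i) ≤ L * (gf g h + KA) :=
    mul_le_mul_of_nonneg_left (by exact_mod_cast e6) hL0
  linarith

end Pool.Agent.Work.MP_46c206_al
end

-- merged part: Pool.Agent.Work.MP_46c206_al.Word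
section
/-!
The word metric of a finitely generated group.
-/

namespace Pool.Agent.Work.MP_46c206_al

open Pool.Agent.QIB

variable {G : Type} [Group G]

theorem wlen_le (S : Set G) (l : List G) (hl : ∀ s ∈ l, s ∈ S ∨ s⁻¹ ∈ S) :
    wlen S l.prod ≤ l.length :=
  Nat.sInf_le ⟨l, rfl, hl, rfl⟩

theorem wlen_spec {S : Set G} (hS : Subgroup.closure S = ⊤) (g : G) :
    ∃ l : List G, l.length = wlen S g ∧ (∀ s ∈ l, s ∈ S ∨ s⁻¹ ∈ S) ∧ l.prod = g := by
  have : {n | ∃ l : List G, l.length = n ∧ (∀ s ∈ l, s ∈ S ∨ s⁻¹ ∈ S) ∧ l.prod = g}.Nonempty := by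
    have hg : g ∈ (Subgroup.closure S).toSubmonoid := by rw [hS]; trivial
    rw [Subgroup.closure_toSubmonoid] at hg
    obtain ⟨l, h1, h2⟩ := Submonoid.exists_list_of_mem_closure hg
    exact ⟨_, l, rfl, fun s hs => by simpa using h1 s hs, h2⟩
  exact Nat.sInf_mem this

theorem wlen_one (S : Set G) : wlen S 1 = 0 := by
  have := wlen_le S [] (by simp)
  simpa using this

theorem wlen_mul_le {S : Set G} (hS : Subgroup.closure S = ⊤) (g h : G) :
    wlen S (g * h) ≤ wlen S g + wlen S h := by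
  obtain ⟨l, h1, h2, h3⟩ := wlen_spec hS g
  obtain ⟨m, k1, k2, k3⟩ := wlen_spec hS h
  have := wlen_le S (l ++ m) (by
    intro s hs
    rcases List.mem_append.1 hs with hs | hs
    · exact h2 s hs
    · exact k2 s hs)
  rw [List.prod_append, h3, k3, List.length_append] at this
  omega

theorem wlen_inv_le {S : Set G} (hS : Subgroup.closure S = ⊤) (g : G) :
    wlen S g⁻¹ ≤ wlen S g := by
  obtain ⟨l, h1, h2, h3⟩ := wlen_spec hS g
  have := wlen_le S (l.map fun x => x⁻¹).reverse (by
    intro s hs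
    rw [List.mem_reverse, List.mem_map] at hs
    obtain ⟨t, ht, rfl⟩ := hs
    simpa [or_comm] using h2 t ht)
  rw [← List.prod_inv_reverse, h3] at this
  simpa [h1] using this

theorem wlen_inv {S : Set G} (hS : Subgroup.closure S = ⊤) (g : G) :
    wlen S g⁻¹ = wlen S g :=
  le_antisymm (wlen_inv_le hS g) (by simpa using wlen_inv_le hS g⁻¹)

theorem eq_one_of_wlen {S : Set G} (hS : Subgroup.closure S = ⊤) {g : G} (h : wlen S g = 0) :
    g = 1 := by
  obtain ⟨l, h1, _, h3⟩ := wlen_spec hS g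
  rw [h, List.length_eq_zero_iff] at h1
  rw [← h3, h1, List.prod_nil]

theorem wlen_step {S : Set G} (hS : Subgroup.closure S = ⊤) {g : G} {n : ℕ}
    (h : wlen S g = n + 1) : ∃ s, (s ∈ S ∨ s⁻¹ ∈ S) ∧ wlen S s = 1 ∧ wlen S (s⁻¹ * g) = n := by
  obtain ⟨l, h1, h2, h3⟩ := wlen_spec hS g
  cases l with
  | nil => rw [h] at h1; simp at h1
  | cons s l =>
    have e1 := wlen_le S l fun t ht => h2 t (List.mem_cons_of_mem _ ht)
    have e2 := wlen_le S [s] (by simpa using h2 s List.mem_cons_self)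
    have e3 := wlen_mul_le hS s l.prod
    rw [List.prod_cons] at h3
    rw [h3] at e3
    simp only [List.length_cons, List.prod_cons, List.prod_nil, mul_one, List.length_nil] at h1 e2
    refine ⟨s, h2 s List.mem_cons_self, by omega, ?_⟩
    rw [← h3, inv_mul_cancel_left]; omega

/-- The Cayley graph as a geodesic space. -/
@[reducible] noncomputable def wordGSp {S : Set G} (hS : Subgroup.closure S = ⊤) : GSp G where
  d x y := wlen S (x⁻¹ * y)
  d_self x := by simp [wlen_one]
  d_comm x y := by rw [← wlen_inv hS]; simp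
  d_tri x y z := by
    have := wlen_mul_le hS (x⁻¹ * y) (y⁻¹ * z)
    rwa [show x⁻¹ * y * (y⁻¹ * z) = x⁻¹ * z by group] at this
  eq_of_d x y h := inv_mul_eq_one.1 (eq_one_of_wlen hS h)
  step x y n h := by
    obtain ⟨s, _, h1, h2⟩ := wlen_step hS h
    exact ⟨x * s, by simpa using h1, by rw [mul_inv_rev, mul_assoc]; exact h2⟩

theorem sphere_count (S : Finset G) (hS : Subgroup.closure (S : Set G) = ⊤) :
    ∃ A : ℕ, ∀ n, ∃ T : Finset G, T.card ≤ A ^ n ∧ ∀ g, wlen (S : Set G) g = n → g ∈ T := by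
  classical
  refine ⟨(S ∪ S.image fun s => s⁻¹).card, fun n => ?_⟩
  induction n with
  | zero => exact ⟨{1}, by simp, fun g hg => by simp [eq_one_of_wlen hS hg]⟩
  | succ n ih =>
    obtain ⟨T, h1, h2⟩ := ih
    refine ⟨Finset.image₂ (· * ·) (S ∪ S.image fun s => s⁻¹) T, ?_, fun g hg => ?_⟩
    · refine (Finset.card_image₂_le _ _ _).trans ?_
      rw [pow_succ']
      exact Nat.mul_le_mul_left _ h1
    · obtain ⟨s, hs, _, h4⟩ := wlen_step hS hg
      refine Finset.mem_image₂.2 ⟨s, ?_, s⁻¹ * g, h2 _ h4, by simp⟩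
      rcases hs with hs | hs
      · exact Finset.mem_union_left _ hs
      · exact Finset.mem_union_right _ (Finset.mem_image.2 ⟨s⁻¹, hs, by simp⟩)

theorem ball_finite (S : Finset G) (hS : Subgroup.closure (S : Set G) = ⊤) (n : ℕ) :
    {g : G | wlen (S : Set G) g ≤ n}.Finite := by
  obtain ⟨A, hA⟩ := sphere_count S hS
  choose T _ hT using hA
  refine ((Set.finite_Iic n).biUnion fun k _ => (T k).finite_toSet).subset fun g hg => ?_
  exact Set.mem_biUnion (x := wlen (S : Set G) g) hg (hT _ g rfl)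

theorem hyp_of_isHyp {S : Set G} (hS : Subgroup.closure S = ⊤) (h : IsHyp (wlen S)) :
    ∃ δ : ℕ, @Hyp G (wordGSp hS) δ := by
  obtain ⟨δ, hδ⟩ := h
  refine ⟨⌈2 * δ⌉₊, fun x y z w => ?_⟩
  have h1 := hδ (w⁻¹ * x) (w⁻¹ * z) (w⁻¹ * y)
  unfold gp at h1
  rw [show (w⁻¹ * x)⁻¹ * (w⁻¹ * z) = x⁻¹ * z by group,
    show (w⁻¹ * z)⁻¹ * (w⁻¹ * y) = z⁻¹ * y by group,
    show (w⁻¹ * x)⁻¹ * (w⁻¹ * y) = x⁻¹ * y by group] at h1
  have c1 : wlen S (w⁻¹ * x) = wlen S (x⁻¹ * w) := by rw [← wlen_inv hS]; simp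
  have c2 : wlen S (w⁻¹ * y) = wlen S (y⁻¹ * w) := by rw [← wlen_inv hS]; simp
  have c3 : wlen S (w⁻¹ * z) = wlen S (z⁻¹ * w) := by rw [← wlen_inv hS]; simp
  have c4 : wlen S (z⁻¹ * y) = wlen S (y⁻¹ * z) := by rw [← wlen_inv hS]; simp
  rw [c1, c2, c3, c4] at h1
  have h2 := Nat.le_ceil (2 * δ)
  show wlen S (x⁻¹ * y) + wlen S (z⁻¹ * w) ≤
    max (wlen S (x⁻¹ * z) + wlen S (y⁻¹ * w)) (wlen S (x⁻¹ * w) + wlen S (y⁻¹ * z)) + ⌈2 * δ⌉₊
  rcases min_le_iff.1 (sub_le_iff_le_add.1 h1) with h3 | h3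
  · have : ((wlen S (x⁻¹ * y) + wlen S (z⁻¹ * w) : ℕ) : ℝ) ≤
        ((wlen S (x⁻¹ * z) + wlen S (y⁻¹ * w) + ⌈2 * δ⌉₊ : ℕ) : ℝ) := by
      push_cast; linarith
    have := Nat.cast_le.1 this
    omega
  · have : ((wlen S (x⁻¹ * y) + wlen S (z⁻¹ * w) : ℕ) : ℝ) ≤
        ((wlen S (x⁻¹ * w) + wlen S (y⁻¹ * z) + ⌈2 * δ⌉₊ : ℕ) : ℝ) := by
      push_cast; linarith
    have := Nat.cast_le.1 this
    omega

end Pool.Agent.Work.MP_46c206_al
end

-- merged part: Pool.Agent.Work.MP_46c206_al.Mitra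
section
/-!
Mitra's criterion for a normal free subgroup of a hyperbolic group.
-/

namespace Pool.Agent.Work.MP_46c206_al

open Pool.Agent.QIB Filter

variable {α : Type} [DecidableEq α] {G : Type} [Group G] [GSp G]

section conj
omit [DecidableEq α] [GSp G]

theorem exists_conj (ι : FreeGroup α →* G) (hn : ι.range.Normal) (x : G) (f : FreeGroup α) :
    ∃ f', ι f' = x⁻¹ * ι f * x := by
  have := hn.conj_mem (ι f) ⟨f, rfl⟩ x⁻¹
  rw [inv_inv] at this
  exact this

/-- Conjugation by an element of the big group. -/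
noncomputable def cj (ι : FreeGroup α →* G) (hn : ι.range.Normal) (x : G) (f : FreeGroup α) :
    FreeGroup α := (exists_conj ι hn x f).choose

theorem cj_spec (ι : FreeGroup α →* G) (hn : ι.range.Normal) (x : G) (f : FreeGroup α) :
    ι (cj ι hn x f) = x⁻¹ * ι f * x := (exists_conj ι hn x f).choose_spec

variable {ι : FreeGroup α →* G} (hι : Function.Injective ι) (hn : ι.range.Normal)
include hι

theorem cj_mul (x : G) (f g : FreeGroup α) : cj ι hn x (f * g) = cj ι hn x f * cj ι hn x g := by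
  apply hι; simp only [map_mul, cj_spec]; group

theorem cj_one (x : G) : cj ι hn x 1 = 1 := by
  apply hι; simp only [map_one, cj_spec]; group

theorem cj_comp (x s : G) (f : FreeGroup α) : cj ι hn (x * s) f = cj ι hn s (cj ι hn x f) := by
  apply hι; simp only [cj_spec]; group

theorem cj_id (f : FreeGroup α) : cj ι hn 1 f = f := by
  apply hι; simp only [cj_spec]; group

theorem cj_inner (m f : FreeGroup α) : cj ι hn (ι m) f = m⁻¹ * f * m := by
  apply hι; simp only [cj_spec, map_mul, map_inv]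

end conj

theorem far_btw {X : Type} [GSp X] (h : Hyp X 0) {u v m u' v' : X} (hm : Btw u m v)
    (hu : d u u' < d u m) (hv : d v v' < d v m) : Btw u' m v' := by
  unfold QIB.Btw at *
  have h1 := h u v u' m
  have h2 := h u' v v' m
  have t1 := d_tri u u' m; have t2 := d_tri v v' m
  have t3 := d_tri u' m v; have t4 := d_tri u' m v'
  have := d_comm v m; have := d_comm v' m; have := d_comm v u'; have := d_comm v v'
  omega

theorem med_eq_one {u v : FreeGroup α} (h : Btw u 1 v) : med u v = 1 := by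
  have h1 := (med_spec u v).1
  have h2 := d_gf u v
  unfold QIB.Btw at h
  rw [d_comm u 1, d_one_free, d_one_free] at h
  rw [← FreeGroup.norm_eq_zero]; omega

theorem med_conj {u v m : FreeGroup α} (hm : Btw u m v) (hu : m.norm < d u m)
    (hv : m.norm < d v m) : med (m⁻¹ * u * m) (m⁻¹ * v * m) = 1 := by
  apply med_eq_one
  have e : ∀ w : FreeGroup α, d w (w * m) = m.norm := fun w => by rw [d_free]; simp
  have h1 := far_btw hyp_free (u' := u * m) (v' := v * m) hm (by rw [e]; exact hu)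
    (by rw [e]; exact hv)
  unfold QIB.Btw at *
  rw [← d_mul_free m⁻¹ (u * m) m, ← d_mul_free m⁻¹ m (v * m), ← d_mul_free m⁻¹ (u * m) (v * m)]
    at h1
  simpa [mul_assoc] using h1

theorem proper_of (hfin : ∀ n, {g : G | d 1 g ≤ n}.Finite) {ι : FreeGroup α →* G}
    (hι : Function.Injective ι) (R : ℕ) : ∃ N, ∀ f, d 1 (ι f) ≤ R → f.norm < N := by
  obtain ⟨N, hN⟩ := (((hfin R).preimage hι.injOn).image FreeGroup.norm).bddAbove
  exact ⟨N + 1, fun f hf => Nat.lt_succ_of_le (hN ⟨f, hf, rfl⟩)⟩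

variable [Finite α]

omit [GSp G] in
theorem cj_lip {ι : FreeGroup α →* G} (hι : Function.Injective ι) (hn : ι.range.Normal) (x : G) :
    ∃ K, ∀ f g, d (cj ι hn x f) (cj ι hn x g) ≤ K * d f g :=
  exists_lip _ fun g a b => by rw [cj_mul hι, cj_mul hι, d_mul_free]

theorem cj_lip_unif (hfin : ∀ n, {g : G | d 1 g ≤ n}.Finite) {ι : FreeGroup α →* G}
    (hι : Function.Injective ι) (hn : ι.range.Normal) :
    ∃ K, ∀ s : G, d 1 s ≤ 1 → ∀ f g, d (cj ι hn s f) (cj ι hn s g) ≤ K * d f g := by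
  choose K hK using cj_lip hι hn
  obtain ⟨K0, h0⟩ := ((hfin 1).image K).bddAbove
  exact ⟨K0, fun s hs f g => (hK s f g).trans (Nat.mul_le_mul_right _ (h0 ⟨s, hs, rfl⟩))⟩

/-- The median projections are uniformly Lipschitz. -/
theorem proj_lip (hinv : ∀ g x y : G, d (g * x) (g * y) = d x y)
    (hfin : ∀ n, {g : G | d 1 g ≤ n}.Finite) {ι : FreeGroup α →* G}
    (hι : Function.Injective ι) (hn : ι.range.Normal) :
    ∃ C, ∀ (u v : FreeGroup α) (x y : G), d x y = 1 →
      d (x * ι (med (cj ι hn x u) (cj ι hn x v))) (y * ι (med (cj ι hn y u) (cj ι hn y v))) ≤ C := by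
  obtain ⟨K, hK⟩ := cj_lip_unif hfin hι hn
  obtain ⟨L, hL⟩ := exists_lip (fun f => ι f) fun g a b => by
    simp only [map_mul]; exact hinv _ _ _
  refine ⟨1 + L * (K * (K * (2 * K)) + K), fun u v x y hxy => ?_⟩
  obtain ⟨s, rfl⟩ : ∃ s, y = x * s := ⟨x⁻¹ * y, by group⟩
  have hs : d 1 s = 1 := by rw [← hinv x, mul_one]; exact hxy
  have hs' : d 1 s⁻¹ = 1 := by rw [← hinv s, mul_one, mul_inv_cancel, d_comm]; exact hs
  rw [cj_comp hι, cj_comp hι]
  generalize cj ι hn x u = u'
  generalize cj ι hn x v = v'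
  obtain ⟨_, a1, a2, a3⟩ := med_spec u' v'
  obtain ⟨_, b1, b2, b3⟩ := med_spec (cj ι hn s u') (cj ι hn s v')
  have key := median_qi slim_free (cj ι hn s) K (hK s hs.le) (fun f g => by
      have := hK s⁻¹ hs'.le (cj ι hn s f) (cj ι hn s g)
      rwa [← cj_comp hι, ← cj_comp hι, mul_inv_cancel, cj_id hι, cj_id hι] at this)
    a1 a2 a3 (by rw [cj_one hι]; exact b1) (by rw [cj_one hι]; exact b2) b3
  generalize med (cj ι hn s u') (cj ι hn s v') = m' at *
  generalize med u' v' = m at *
  have e1 : d (x * ι m) (x * s * ι (cj ι hn s m)) = 1 := by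
    rw [cj_spec, show x * s * (s⁻¹ * ι m * s) = x * ι m * s by group]
    rw [← hs, ← hinv (x * ι m) 1 s, mul_one]
  have e2 : d (x * s * ι (cj ι hn s m)) (x * s * ι m') ≤ L * (K * (K * (2 * K)) + K) := by
    rw [hinv]
    exact (hL _ _).trans (Nat.mul_le_mul_left _ key)
  have := d_tri (x * ι m) (x * s * ι (cj ι hn s m)) (x * s * ι m')
  omega

/-- The ladder retraction. -/
theorem exists_retraction [Nontrivial α] (hinv : ∀ g x y : G, d (g * x) (g * y) = d x y)
    (hfin : ∀ n, {g : G | d 1 g ≤ n}.Finite) {ι : FreeGroup α →* G}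
    (hι : Function.Injective ι) (hn : ι.range.Normal) :
    ∃ C, ∀ a b : FreeGroup α, a ≠ b → ∃ P : G → G, (∀ x y, d x y = 1 → d (P x) (P y) ≤ C) ∧
      (∀ x, P (P x) = P x) ∧ P (ι a) = ι a ∧ P (ι b) = ι b ∧
      ∃ m : FreeGroup α, P 1 = ι m ∧ m.norm = gf a b := by
  obtain ⟨C, hC⟩ := proj_lip hinv hfin hι hn
  obtain ⟨L, hL⟩ := exists_lip (fun f => ι f) fun g a b => by
    simp only [map_mul]; exact hinv _ _ _
  refine ⟨C, fun a b hab => ?_⟩
  obtain ⟨t, ht⟩ := exists_extend a (b⁻¹ * a)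
  obtain ⟨t', ht'⟩ := exists_extend b (a⁻¹ * b)
  set A : ℕ → FreeGroup α := fun k => a * t ^ k with hA
  set B : ℕ → FreeGroup α := fun k => b * t' ^ k with hB
  have dAa : ∀ k, d a (A k) = k := fun k => by rw [d_free, hA]; simpa using (ht k).1
  have dBb : ∀ k, d b (B k) = k := fun k => by rw [d_free, hB]; simpa using (ht' k).1
  have dAb : ∀ k, d b (A k) = d a b + k := fun k => by
    rw [d_free, d_comm a b, d_free, hA]; simpa [mul_assoc] using (ht k).2.2
  have dBa : ∀ k, d a (B k) = d a b + k := fun k => by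
    rw [d_free, d_free, hB]; simpa [mul_assoc] using (ht' k).2.2
  have nA : ∀ k, (A k).norm = a.norm + k := fun k => (ht k).2.1
  have nB : ∀ k, (B k).norm = b.norm + k := fun k => (ht' k).2.1
  have dAB : ∀ k, d (A k) (B k) = d a b + 2 * k := fun k => by
    have h1 := hyp_free (A k) b a (B k)
    have h2 := d_tri (A k) a (B k)
    have h3 := d_pos hab
    have := dAa k; have := dBb k; have := dAb k; have := dBa k
    have := d_comm (A k) b; have := d_comm (A k) a; have := d_comm b a
    omega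
  have gAB : ∀ k, gf (A k) (B k) = gf a b := fun k => by
    have := d_gf (A k) (B k); have := d_gf a b
    have := nA k; have := nB k; have := dAB k
    omega
  set Q : ℕ → G → G := fun k x => x * ι (med (cj ι hn x (A k)) (cj ι hn x (B k))) with hQ
  have hQ1 : ∀ k, Q k 1 = ι (med (A k) (B k)) := fun k => by
    simp only [hQ, cj_id hι, one_mul]
  have hQb : ∀ k x, d 1 (Q k x) ≤ L * gf a b + C * d 1 x := fun k x => by
    have h1 := lip_of_edge (Q k) C (hC (A k) (B k)) 1 x
    have h2 := hL 1 (med (A k) (B k))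
    rw [d_one_free, (med_spec _ _).1, gAB, map_one, ← hQ1] at h2
    have := d_tri 1 (Q k 1) (Q k x)
    omega
  have hlim : ∀ x, ∃ y, ∀ᶠ k in (hyperfilter ℕ : Filter ℕ), Q k x = y := fun x => by
    have := (Ultrafilter.eventually_exists_mem_iff (f := hyperfilter ℕ)
      (P := fun y k => Q k x = y) (hfin (L * gf a b + C * d 1 x))).1 (Eventually.of_forall fun k => ⟨Q k x, hQb k x, rfl⟩)
    obtain ⟨y, _, hy⟩ := this
    exact ⟨y, hy⟩
  choose P hP using hlim
  have hle : (hyperfilter ℕ : Filter ℕ) ≤ atTop := Nat.hyperfilter_le_atTop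
  have hfix : ∀ y, (∀ᶠ k in (hyperfilter ℕ : Filter ℕ), Q k y = y) → P y = y := fun y hy => by
    obtain ⟨k, h1, h2⟩ := ((hP y).and hy).exists
    rw [← h1, h2]
  have hstep : ∀ (k : ℕ) (x : G) (m : FreeGroup α), Btw (cj ι hn x (A k)) m (cj ι hn x (B k)) →
      m.norm < d (cj ι hn x (A k)) m → m.norm < d (cj ι hn x (B k)) m →
      Q k (x * ι m) = x * ι m := by
    intro k x m h1 h2 h3
    simp only [hQ]
    rw [cj_comp hι, cj_comp hι, cj_inner hι, cj_inner hι, med_conj h1 h2 h3, map_one, mul_one]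
  refine ⟨P, fun x y hxy => ?_, fun x => ?_, ?_, ?_, ?_⟩
  · obtain ⟨k, h1, h2⟩ := ((hP x).and (hP y)).exists
    rw [← h1, ← h2]
    exact hC _ _ x y hxy
  · apply hfix
    obtain ⟨k0, hk0⟩ := (hP x).exists
    obtain ⟨m, hm⟩ : ∃ m, P x = x * ι m := ⟨_, hk0.symm⟩
    obtain ⟨K, hK⟩ := cj_lip hι hn x⁻¹
    have far : ∀ (k : ℕ) (w : FreeGroup α), K * (2 * m.norm) < w.norm →
        m.norm < d (cj ι hn x w) m := by
      intro k w hw
      have h1 := hK 1 (cj ι hn x w)
      rw [cj_one hι, ← cj_comp hι, mul_inv_cancel, cj_id hι, d_one_free] at h1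
      have h2 : 2 * m.norm < d 1 (cj ι hn x w) := lt_of_mul_lt_mul_left (hw.trans_le h1) (by omega)
      have := d_tri 1 m (cj ι hn x w)
      rw [d_one_free m] at this
      have := d_comm m (cj ι hn x w)
      omega
    filter_upwards [hP x, hle (eventually_gt_atTop (K * (2 * m.norm)))] with k h1 h2
    rw [hm] at h1 ⊢
    have h3 : med (cj ι hn x (A k)) (cj ι hn x (B k)) = m := hι (mul_left_cancel h1)
    refine hstep k x m (h3 ▸ (med_spec _ _).2.2.2) (far k _ ?_) (far k _ ?_)
    · have := nA k; omega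
    · have := nB k; omega
  · apply hfix
    filter_upwards [hle (eventually_gt_atTop a.norm)] with k h2
    have := hstep k 1 a
    rw [cj_id hι, cj_id hι, one_mul] at this
    have := dAa k; have := dBa k; have := dAB k; have := d_comm a (A k); have := d_comm a (B k)
    apply_assumption
    · unfold QIB.Btw; omega
    · omega
    · omega
  · apply hfix
    filter_upwards [hle (eventually_gt_atTop b.norm)] with k h2
    have := hstep k 1 b
    rw [cj_id hι, cj_id hι, one_mul] at this
    have := dAb k; have := dBb k; have := dAB k; have := d_comm b (A k); have := d_comm b (B k)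
    apply_assumption
    · unfold QIB.Btw; omega
    · omega
    · omega
  · obtain ⟨k, hk⟩ := (hP 1).exists
    exact ⟨med (A k) (B k), by rw [← hk, hQ1], by rw [(med_spec _ _).1, gAB]⟩

/-- Mitra's criterion. -/
theorem mitra [Nontrivial α] (hinv : ∀ g x y : G, d (g * x) (g * y) = d x y)
    (hfin : ∀ n, {g : G | d 1 g ≤ n}.Finite) {δ : ℕ} (hδ : Hyp G δ) {ι : FreeGroup α →* G}
    (hι : Function.Injective ι) (hn : ι.range.Normal) (M : ℕ) :
    ∃ N, ∀ a b : FreeGroup α, N ≤ gf a b →
      d (ι a) (ι b) + 2 * M ≤ d 1 (ι a) + d 1 (ι b) := by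
  obtain ⟨C, hC⟩ := exists_retraction hinv hfin hι hn
  set D0 := (2 * (2 * δ) + C) + 2 * δ * (24 * (2 * (2 * δ) + C) + 24 * (2 * δ)) with hD0
  set R := M + 2 * δ + 1 + D0 with hR
  obtain ⟨N, hN⟩ := proper_of hfin hι (R + C * R)
  refine ⟨N, fun a b hab => ?_⟩
  by_contra hc
  push Not at hc
  by_cases h : a = b
  · subst h
    rw [d_self] at hc
    have := hN a (by omega)
    have := gf_le_left a a
    omega
  obtain ⟨P, h1, h2, h3, h4, m, h5, h6⟩ := hC a b h
  obtain ⟨p, hp, hp'⟩ := near_btw hδ (a := ι a) (b := ι b) (w := 1) (κ := 2 * M) (by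
    have := d_comm (ι a) 1; omega)
  obtain ⟨y, hy, hy'⟩ := retract_qc (slim_of_hyp hδ) P C h1 h2 h3 h4 p hp
  have e1 := d_tri 1 p y
  have e2 : d 1 y ≤ R := by omega
  have e3 := (lip_of_edge P C h1 1 y).trans (Nat.mul_le_mul_left C e2)
  rw [hy, h5] at e3
  have := d_tri 1 y (ι m); have := d_comm y (ι m)
  have := hN m (by omega)
  omega

end Pool.Agent.Work.MP_46c206_al
end

-- merged part: Pool.Agent.Work.MP_46c206_al.Bdry
section
/-!
Boundary points, rays, the Cannon-Thurston map and sublinearity of endpoints of leaves.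
-/

namespace Pool.Agent.Work.MP_46c206_al

open Pool.Agent.QIB Filter

section general
variable {G : Type} [Group G] {ℓ : G → ℕ}

theorem isGromov_iff {u : ℕ → G} :
    IsGromov ℓ u ↔ ∀ M : ℝ, ∃ i0, ∀ i j, i0 ≤ i → i0 ≤ j → M ≤ gp ℓ (u i) (u j) := by
  unfold IsGromov
  rw [tendsto_atTop]
  refine forall_congr' fun M => ?_
  rw [eventually_atTop]
  constructor
  · rintro ⟨⟨a, b⟩, h⟩
    exact ⟨max a b, fun i j hi hj => h (i, j) ⟨le_of_max_le_left hi, le_of_max_le_right hj⟩⟩
  · rintro ⟨i0, h⟩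
    exact ⟨(i0, i0), fun p hp => h p.1 p.2 hp.1 hp.2⟩

theorem gp_comm (hs : ∀ x, ℓ x⁻¹ = ℓ x) (x y : G) : gp ℓ x y = gp ℓ y x := by
  unfold gp
  rw [← hs (x⁻¹ * y)]
  simp only [mul_inv_rev, inv_inv]
  ring

theorem tendsto_trans (hh : IsHyp ℓ) {β : Type} {l : Filter β} {u v w : β → G}
    (h1 : Tendsto (fun n => gp ℓ (u n) (v n)) l atTop)
    (h2 : Tendsto (fun n => gp ℓ (v n) (w n)) l atTop) :
    Tendsto (fun n => gp ℓ (u n) (w n)) l atTop := by
  obtain ⟨δ, hδ⟩ := hh
  rw [tendsto_atTop] at *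
  intro M
  filter_upwards [h1 (M + δ), h2 (M + δ)] with n a b
  have := hδ (u n) (v n) (w n)
  have := le_min a b
  linarith

theorem rel_of_convTo (hs : ∀ x, ℓ x⁻¹ = ℓ x) (hh : IsHyp ℓ) {u v : ℕ → G} {p : Bd ℓ}
    (hu : ConvTo ℓ u p) (hv : ConvTo ℓ v p) :
    Tendsto (fun n => gp ℓ (u n) (v n)) atTop atTop := by
  obtain ⟨hu, e1⟩ := hu
  obtain ⟨hv, e2⟩ := hv
  have E : Equivalence fun u v : {u : ℕ → G // IsGromov ℓ u} =>
      Tendsto (fun n => gp ℓ (u.1 n) (v.1 n)) atTop atTop := by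
    refine ⟨fun u => ?_, fun {u v} h => ?_, fun h1 h2 => tendsto_trans hh h1 h2⟩
    · rw [tendsto_atTop]
      intro M
      obtain ⟨i0, h⟩ := isGromov_iff.1 u.2 M
      filter_upwards [eventually_ge_atTop i0] with i hi using h i i hi hi
    · exact h.congr fun n => gp_comm hs _ _
  have := Quot.eqvGen_exact (e1.trans e2.symm)
  rw [E.eqvGen_iff] at this
  exact this

theorem convTo_unique {u : ℕ → G} {p q : Bd ℓ} (h1 : ConvTo ℓ u p) (h2 : ConvTo ℓ u q) :
    p = q := by
  obtain ⟨_, e1⟩ := h1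
  obtain ⟨_, e2⟩ := h2
  exact e1.symm.trans e2

theorem exists_convTo (p : Bd ℓ) : ∃ u, ConvTo ℓ u p := by
  obtain ⟨⟨u, hu⟩, rfl⟩ := Quot.exists_rep p
  exact ⟨u, hu, rfl⟩

theorem eq_of_rel {u v : ℕ → G} {p q : Bd ℓ} (hu : ConvTo ℓ u p) (hv : ConvTo ℓ v q)
    (h : Tendsto (fun n => gp ℓ (u n) (v n)) atTop atTop) : p = q := by
  obtain ⟨hu, rfl⟩ := hu
  obtain ⟨hv, rfl⟩ := hv
  exact Quot.sound h

theorem le_gp_iff [GSp G] (hd : ∀ x y : G, d x y = ℓ (x⁻¹ * y)) (M : ℕ) (x y : G) :
    (M : ℝ) ≤ gp ℓ x y ↔ d x y + 2 * M ≤ d 1 x + d 1 y := by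
  unfold gp
  rw [hd, hd, hd, inv_one, one_mul, one_mul, le_div_iff₀ (by norm_num : (0 : ℝ) < 2),
    ← Nat.cast_le (α := ℝ)]
  push_cast
  constructor <;> intro h <;> linarith

end general

variable {α : Type} [DecidableEq α]

theorem gp_free (x y : FreeGroup α) : gp FreeGroup.norm x y = gf x y := by
  unfold gp
  have : (((x⁻¹ * y).norm + 2 * gf x y : ℕ) : ℝ) = ((x.norm + y.norm : ℕ) : ℝ) := by
    rw [norm_gf]
  push_cast at this
  linarith

theorem isHyp_free : IsHyp (FreeGroup.norm : FreeGroup α → ℕ) := by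
  refine ⟨0, fun x y z => ?_⟩
  rw [gp_free, gp_free, gp_free, sub_zero]
  exact_mod_cast gf_ultra x y z

theorem tendsto_gf {β : Type} {l : Filter β} {u v : β → FreeGroup α} :
    Tendsto (fun n => gp FreeGroup.norm (u n) (v n)) l atTop ↔
      ∀ N : ℕ, ∀ᶠ n in l, N ≤ gf (u n) (v n) := by
  simp only [gp_free]
  rw [tendsto_natCast_atTop_iff, tendsto_atTop]

theorem exists_ray {u : ℕ → FreeGroup α} (hu : IsGromov FreeGroup.norm u) :
    ∃ ρ : ℕ → FreeGroup α, ∀ n, (ρ n).norm = n ∧ ∀ᶠ i in atTop, n ≤ gf (ρ n) (u i) := by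
  have : ∀ n : ℕ, ∃ f : FreeGroup α, f.norm = n ∧ ∀ᶠ i in atTop, n ≤ gf f (u i) := by
    intro n
    obtain ⟨i0, h⟩ := isGromov_iff.1 hu n
    simp only [gp_free, Nat.cast_le] at h
    obtain ⟨f, h1, h2⟩ := exists_initial (u i0) n
      ((h i0 i0 le_rfl le_rfl).trans (gf_le_left _ _))
    refine ⟨f, h1, ?_⟩
    filter_upwards [eventually_ge_atTop i0] with i hi
    have := gf_ultra f (u i0) (u i)
    have := h i0 i le_rfl hi
    omega
  exact (Classical.skolem).1 this

/-- The set of boundary points behind `f`. -/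
def Cyl (f : FreeGroup α) : Set (Bd (FreeGroup.norm : FreeGroup α → ℕ)) :=
  {p | ∃ u, ConvTo FreeGroup.norm u p ∧ ∀ᶠ i in atTop, f.norm ≤ gf f (u i)}

theorem ray_gf {u ρ : ℕ → FreeGroup α}
    (h : ∀ n, (ρ n).norm = n ∧ ∀ᶠ i in atTop, n ≤ gf (ρ n) (u i)) {n m : ℕ} (hnm : n ≤ m) :
    d (ρ n) (ρ m) + n = m := by
  obtain ⟨i, h1, h2⟩ := ((h n).2.and (h m).2).exists
  have e1 := gf_ultra (ρ n) (u i) (ρ m)
  have e2 := gf_comm (u i) (ρ m)
  have e3 := gf_le_left (ρ n) (ρ m)
  have e4 := d_gf (ρ n) (ρ m)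
  have := (h n).1; have := (h m).1
  omega

theorem ray_rel {u ρ : ℕ → FreeGroup α} (hu : IsGromov FreeGroup.norm u)
    (h : ∀ n, (ρ n).norm = n ∧ ∀ᶠ i in atTop, n ≤ gf (ρ n) (u i)) :
    Tendsto (fun n => gp FreeGroup.norm (ρ n) (u n)) atTop atTop := by
  rw [tendsto_gf]
  intro N
  obtain ⟨i0, h0⟩ := isGromov_iff.1 hu N
  simp only [gp_free, Nat.cast_le] at h0
  filter_upwards [eventually_ge_atTop i0, eventually_ge_atTop N] with n h1 h2
  obtain ⟨i, h3, h4⟩ := ((h n).2.and (eventually_ge_atTop i0)).exists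
  have := gf_ultra (ρ n) (u i) (u n)
  have := h0 i n h4 h1
  omega

variable {G : Type} [Group G] [GSp G] {ℓ : G → ℕ} {ι : FreeGroup α →* G}

theorem tendsto_of_mitra (hd : ∀ x y : G, d x y = ℓ (x⁻¹ * y))
    (hM : ∀ M, ∃ N, ∀ a b : FreeGroup α, N ≤ gf a b →
      d (ι a) (ι b) + 2 * M ≤ d 1 (ι a) + d 1 (ι b))
    {β : Type} {l : Filter β} {u v : β → FreeGroup α}
    (h : Tendsto (fun n => gp FreeGroup.norm (u n) (v n)) l atTop) :
    Tendsto (fun n => gp ℓ (ι (u n)) (ι (v n))) l atTop := by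
  rw [tendsto_gf] at h
  rw [tendsto_atTop]
  intro M
  obtain ⟨N, hN⟩ := hM ⌈M⌉₊
  filter_upwards [h N] with n hn
  exact (Nat.le_ceil M).trans ((le_gp_iff hd _ _ _).2 (hN _ _ hn))

theorem exists_ct (hd : ∀ x y : G, d x y = ℓ (x⁻¹ * y))
    (hM : ∀ M, ∃ N, ∀ a b : FreeGroup α, N ≤ gf a b →
      d (ι a) (ι b) + 2 * M ≤ d 1 (ι a) + d 1 (ι b)) :
    ∃ c, IsCT FreeGroup.norm ℓ ι c := by
  refine ⟨Quot.map (fun u => ⟨fun n => ι (u.1 n), tendsto_of_mitra hd hM u.2⟩)
    (fun u v h => tendsto_of_mitra hd hM h), ?_⟩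
  rintro u p ⟨hu, rfl⟩
  exact ⟨tendsto_of_mitra hd hM hu, rfl⟩

omit [GSp G] in
theorem ct_unique {c c' : Bd (FreeGroup.norm : FreeGroup α → ℕ) → Bd ℓ}
    (h : IsCT FreeGroup.norm ℓ ι c) (h' : IsCT FreeGroup.norm ℓ ι c') : c' = c := by
  funext p
  obtain ⟨u, hu⟩ := exists_convTo p
  exact convTo_unique (h' u p hu) (h u p hu)

/-- Endpoints of leaves are sublinear directions. -/
theorem sublinear [Finite α] (hd : ∀ x y : G, d x y = ℓ (x⁻¹ * y)) {δ : ℕ} (hδ : Hyp G δ)
    (hh : IsHyp ℓ)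
    (hM : ∀ M, ∃ N, ∀ a b : FreeGroup α, N ≤ gf a b →
      d (ι a) (ι b) + 2 * M ≤ d 1 (ι a) + d 1 (ι b))
    {c : Bd (FreeGroup.norm : FreeGroup α → ℕ) → Bd ℓ} (hc : IsCT FreeGroup.norm ℓ ι c)
    {p : Bd (FreeGroup.norm : FreeGroup α → ℕ)} (hp : p ∈ endpoints c) (E n0 : ℕ) :
    ∃ f : FreeGroup α, n0 ≤ f.norm ∧ E * d 1 (ι f) < f.norm ∧ p ∈ Cyl f := by
  have hinv : ∀ g x y : G, d (g * x) (g * y) = d x y := fun g x y => by
    rw [hd, hd]; congr 1; group
  have hs : ∀ x, ℓ x⁻¹ = ℓ x := fun x => by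
    have := d_comm x 1
    rw [hd, hd] at this
    simpa using this
  obtain ⟨q, hpq, hcq⟩ := hp
  obtain ⟨u, hu⟩ := exists_convTo p
  obtain ⟨v, hv⟩ := exists_convTo q
  obtain ⟨ρ, hρ⟩ := exists_ray hu.1
  obtain ⟨σ, hσ⟩ := exists_ray hv.1
  by_contra hcon
  push Not at hcon
  have hE : ∀ n, n0 ≤ n → n ≤ E * d (ι (ρ 0)) (ι (ρ n)) := by
    intro n hn
    have h0 : ρ 0 = 1 := FreeGroup.norm_eq_zero.1 (hρ 0).1
    rw [h0, map_one]
    by_contra h1
    push Not at h1
    refine hcon (ρ n) (by rw [(hρ n).1]; exact hn) (by rw [(hρ n).1]; exact h1) ⟨u, hu, ?_⟩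
    rw [(hρ n).1]; exact (hρ n).2
  obtain ⟨L, hL⟩ := exists_lip (fun f => ι f) fun g a b => by
    simp only [map_mul]; exact hinv _ _ _
  obtain ⟨D, hD⟩ := escape hδ (fun n => ι (ρ n)) L E n0 (fun i => by
    have h1 := hL (ρ i) (ρ (i + 1))
    have h2 := ray_gf hρ (show i ≤ i + 1 by omega)
    rw [show d (ρ i) (ρ (i + 1)) = 1 by omega, mul_one] at h1
    exact h1) hE
  -- the two rays diverge in the free group
  obtain ⟨B, hB⟩ : ∃ B, ∀ n m, gf (ρ n) (σ m) < B := by
    by_contra hB
    push Not at hB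
    apply hpq
    apply eq_of_rel hu hv
    rw [tendsto_gf]
    intro N
    obtain ⟨n, m, h⟩ := hB N
    filter_upwards [(hρ n).2, (hσ m).2] with i h1 h2
    have e1 := gf_ultra (u i) (ρ n) (σ m)
    have e2 := gf_ultra (u i) (σ m) (v i)
    have e3 := gf_comm (u i) (ρ n)
    have e4 := gf_le_left (ρ n) (σ m)
    have e5 := gf_le_right (ρ n) (σ m)
    have := (hρ n).1; have := (hσ m).1
    omega
  -- and converge to the same point in the big group
  have hleaf : Tendsto (fun n => gp ℓ (ι (ρ n)) (ι (σ n))) atTop atTop := by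
    have a1 := tendsto_of_mitra hd hM (ray_rel hu.1 hρ)
    have a2 := tendsto_of_mitra hd hM (ray_rel hv.1 hσ)
    have a3 := rel_of_convTo hs hh (hc u p hu) (hcq ▸ hc v q hv)
    exact tendsto_trans hh (tendsto_trans hh a1 a3) (a2.congr fun n => gp_comm hs _ _)
  obtain ⟨N, hN⟩ := hM (D + 2 * δ + 1)
  have hN' : ∀ f a b : FreeGroup α, d a b + 2 * N ≤ d f a + d f b →
      d (ι a) (ι b) + 2 * (D + 2 * δ + 1) ≤ d (ι f) (ι a) + d (ι f) (ι b) := by
    intro f a b h
    have e1 := d_gf (f⁻¹ * a) (f⁻¹ * b)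
    rw [d_mul_free, ← d_free, ← d_free] at e1
    have e2 := hN (f⁻¹ * a) (f⁻¹ * b) (by omega)
    rw [← hinv (ι f), ← hinv (ι f) 1, ← hinv (ι f) 1] at e2
    simpa using e2
  obtain ⟨n, m, h1, h2, h3⟩ := hD (N + B)
  obtain ⟨j, h4, h5⟩ := (((tendsto_atTop.1 hleaf)
    ((D + 2 * δ + 1 + d 1 (ι (ρ n)) : ℕ) : ℝ)).and (eventually_ge_atTop m)).exists
  rw [le_gp_iff hd] at h4
  have h0 : ρ 0 = 1 := FreeGroup.norm_eq_zero.1 (hρ 0).1
  simp only [h0, map_one] at h3
  have a1 := hN' (ρ n) 1 (σ j) (by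
    have e1 := d_gf (ρ n) (σ j)
    have e2 := hB n j
    rw [d_comm (ρ n) 1, d_one_free, d_one_free]
    have := (hρ n).1; have := (hσ j).1
    omega)
  have a2 := hN' (ρ n) (ρ m) (ρ j) (by
    have e1 := ray_gf hρ h5
    have e2 := ray_gf hρ (show n ≤ m by omega)
    have e3 := ray_gf hρ (show n ≤ j by omega)
    omega)
  rw [map_one] at a1
  generalize ι (ρ n) = x at *
  generalize ι (ρ m) = y at *
  generalize ι (ρ j) = z at *
  generalize ι (σ j) = w at *
  have b1 := hδ 1 y w x
  have b2 := hδ y w z x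
  have t1 := d_tri 1 x z; have t2 := d_tri 1 x w
  have := d_comm x 1; have := d_comm w x; have := d_comm y x; have := d_comm z x
  have := d_comm w z; have := d_comm y w
  omega

end Pool.Agent.Work.MP_46c206_al
end

-- merged part: Pool.Agent.Work.MP_46c206_al.Visual
section
/-!
The visual metric of a tree on the boundary of the free group.
-/

namespace Pool.Agent.Work.MP_46c206_al

open Pool.Agent.QIB Filter Topology

variable {α : Type} [DecidableEq α] [Finite α] (T : FreeTree (FreeGroup α)) (x : T.V)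

/-- Gromov product of two orbit points. -/
noncomputable def og (g h : FreeGroup α) : ℝ := T.tgp x (T.act g x) (T.act h x)

theorem og_tendsto_iff {β : Type} {l : Filter β} {u v : β → FreeGroup α} :
    Tendsto (fun n => og T x (u n) (v n)) l atTop ↔
      Tendsto (fun n => gp FreeGroup.norm (u n) (v n)) l atTop := by
  simp only [gp_free]
  constructor
  · intro h
    obtain ⟨L, C, hL, hC⟩ := tgp_upper T x
    rw [tendsto_atTop] at *
    intro M
    filter_upwards [h ((L + 1) * max M 0 + C)] with n hn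
    have e1 := hC (u n) (v n)
    have e2 : (0 : ℝ) ≤ gf (u n) (v n) := by positivity
    have e3 := le_max_left M 0
    unfold og at hn
    by_contra hc
    push Not at hc
    nlinarith [le_max_right M 0]
  · intro h
    obtain ⟨lam, C, hl, hC⟩ := tgp_lower T x
    exact tendsto_atTop_mono (fun n => hC (u n) (v n))
      (tendsto_atTop_add_const_right _ (-C) (h.const_mul_atTop hl))

omit [DecidableEq α] [Finite α] in
theorem og_comm (g h : FreeGroup α) : og T x g h = og T x h g := T.tgp_comm _ _ _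

omit [DecidableEq α] [Finite α] in
theorem og_ultra (g h k : FreeGroup α) : min (og T x g h) (og T x h k) ≤ og T x g k :=
  T.tgp_ultra _ _ _ _

omit [DecidableEq α] [Finite α] in
theorem og_eq {g h g' h' : FreeGroup α} (h1 : og T x g h < og T x g g')
    (h2 : og T x g h < og T x h h') : og T x g' h' = og T x g h := by
  have a1 := og_ultra T x g g' h
  have a2 := og_ultra T x g' g h
  have a3 := og_ultra T x g' h' h
  have a4 := og_ultra T x g' h h'
  rw [og_comm T x g' g] at a2
  rw [og_comm T x h' h] at a3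
  have b : og T x g' h = og T x g h := by
    rcases min_le_iff.1 a1 with c | c
    · linarith
    · rw [min_eq_right h1.le] at a2; linarith
  rw [b] at a3 a4
  rw [min_eq_left h2.le] at a4
  rcases min_le_iff.1 a3 with c | c <;> linarith

omit [Finite α] in
theorem norm_symm (g : FreeGroup α) : g⁻¹.norm = g.norm := FreeGroup.norm_inv_eq

theorem og_eventually {p q : Bd (FreeGroup.norm : FreeGroup α → ℕ)} (hpq : p ≠ q) :
    ∃ B : ℝ, ∀ u v, ConvTo FreeGroup.norm u p → ConvTo FreeGroup.norm v q →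
      ∀ᶠ n in atTop, og T x (u n) (v n) = B := by
  obtain ⟨u, hu⟩ := exists_convTo p
  obtain ⟨v, hv⟩ := exists_convTo q
  have h1 : ¬ Tendsto (fun n => og T x (u n) (v n)) atTop atTop := fun h =>
    hpq (eq_of_rel hu hv ((og_tendsto_iff T x).1 h))
  rw [tendsto_atTop] at h1
  push Not at h1
  obtain ⟨B, hB⟩ := h1
  have g1 := tendsto_atTop.1 ((og_tendsto_iff T x).2 hu.1) B
  have g2 := tendsto_atTop.1 ((og_tendsto_iff T x).2 hv.1) B
  obtain ⟨⟨a, b⟩, h3⟩ := eventually_atTop.1 (g1.and g2)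
  obtain ⟨n0, h4, h5⟩ := (hB.and_eventually (eventually_ge_atTop (max a b))).exists
  refine ⟨og T x (u n0) (v n0), fun u' v' hu' hv' => ?_⟩
  have r1 := tendsto_atTop.1 ((og_tendsto_iff T x).2 (rel_of_convTo norm_symm isHyp_free hu hu')) B
  have r2 := tendsto_atTop.1 ((og_tendsto_iff T x).2 (rel_of_convTo norm_symm isHyp_free hv hv')) B
  filter_upwards [r1, r2, eventually_ge_atTop (max a b)] with n c1 c2 c3
  obtain ⟨c4, c5⟩ := h3 (n0, n) ⟨le_of_max_le_left h5, le_of_max_le_right c3⟩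
  have e := og_eq T x (g := u n0) (h := v n0) (g' := u n) (h' := v n) (by linarith) (by linarith)
  rw [← e]
  exact og_eq T x (by linarith) (by linarith)

theorem exists_visual {a : ℝ} (ha : 1 < a) :
    ∃ ρ, IsVisual FreeGroup.norm T x a ρ ∧ ∀ p q, p ≠ q → 0 < ρ p q := by
  classical
  choose B hB using fun p q : Bd (FreeGroup.norm : FreeGroup α → ℕ) =>
    og_eventually T x (p := p) (q := q)
  refine ⟨fun p q => if h : p = q then 0 else a ^ (-B p q h), fun u v p q hu hv => ?_,
    fun p q h => ?_⟩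
  · by_cases h : p = q
    · subst h
      simp only [dif_pos]
      have h1 := (og_tendsto_iff T x).2 (rel_of_convTo norm_symm isHyp_free hu hv)
      exact (tendsto_rpow_atBot_of_base_gt_one a ha).comp (tendsto_neg_atTop_atBot.comp h1)
    · simp only [dif_neg h]
      refine tendsto_const_nhds.congr' ?_
      filter_upwards [hB p q h u v hu hv] with n hn
      rw [← hn]; rfl
  · simp only [dif_neg h]
    exact Real.rpow_pos_of_pos (by linarith) _

theorem exists_visual_metric {a : ℝ} (ha : 1 < a) :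
    ∃ m : MetricSpace (Bd (FreeGroup.norm : FreeGroup α → ℕ)),
      IsVisual FreeGroup.norm T x a m.dist := by
  obtain ⟨ρ, h1, h2⟩ := exists_visual T x ha
  have self : ∀ p, ρ p p = 0 := fun p => by
    obtain ⟨u, hu⟩ := exists_convTo p
    have e := (og_tendsto_iff T x).2 (rel_of_convTo norm_symm isHyp_free hu hu)
    exact tendsto_nhds_unique (h1 u u p p hu hu)
      ((tendsto_rpow_atBot_of_base_gt_one a ha).comp (tendsto_neg_atTop_atBot.comp e))
  refine ⟨{ dist := ρ
            dist_self := self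
            dist_comm := fun p q => ?_
            dist_triangle := fun p q r => ?_
            eq_of_dist_eq_zero := fun {p q} h => ?_ }, h1⟩
  · obtain ⟨u, hu⟩ := exists_convTo p
    obtain ⟨v, hv⟩ := exists_convTo q
    refine tendsto_nhds_unique (h1 u v p q hu hv) ((h1 v u q p hv hu).congr fun n => ?_)
    rw [T.tgp_comm]
  · obtain ⟨u, hu⟩ := exists_convTo p
    obtain ⟨v, hv⟩ := exists_convTo q
    obtain ⟨w, hw⟩ := exists_convTo r
    refine le_of_tendsto_of_tendsto' (h1 u w p r hu hw)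
      ((h1 u v p q hu hv).add (h1 v w q r hv hw)) fun n => ?_
    have e1 := Real.rpow_pos_of_pos (show 0 < a by linarith)
      (-T.tgp x (T.act (u n) x) (T.act (v n) x))
    have e2 := Real.rpow_pos_of_pos (show 0 < a by linarith)
      (-T.tgp x (T.act (v n) x) (T.act (w n) x))
    rcases min_le_iff.1 (T.tgp_ultra x (T.act (u n) x) (T.act (v n) x) (T.act (w n) x)) with c | c
    · have := Real.rpow_le_rpow_of_exponent_le ha.le (neg_le_neg c)
      linarith
    · have := Real.rpow_le_rpow_of_exponent_le ha.le (neg_le_neg c)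
      linarith
  · by_contra hc
    exact (h2 p q hc).ne' h

theorem visual_cyl {a : ℝ} (ha : 1 < a) : ∃ C θ : ℝ, 0 < C ∧ 0 < θ ∧ θ < 1 ∧
    ∀ ρ, IsVisual FreeGroup.norm T x a ρ → ∀ f : FreeGroup α, ∀ p ∈ Cyl f, ∀ q ∈ Cyl f,
      ρ p q ≤ C * θ ^ f.norm := by
  obtain ⟨lam, C, hl, hC⟩ := tgp_lower T x
  have ha0 : 0 < a := by linarith
  refine ⟨a ^ C, a ^ (-lam), Real.rpow_pos_of_pos ha0 _, Real.rpow_pos_of_pos ha0 _,
    Real.rpow_lt_one_of_one_lt_of_neg ha (by linarith), ?_⟩
  rintro ρ hρ f p ⟨u, hu, hu'⟩ q ⟨v, hv, hv'⟩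
  refine le_of_tendsto (hρ u v p q hu hv) ?_
  filter_upwards [hu', hv'] with n h1 h2
  rw [← Real.rpow_natCast, ← Real.rpow_mul ha0.le, ← Real.rpow_add ha0]
  apply Real.rpow_le_rpow_of_exponent_le ha.le
  have e1 := hC (u n) (v n)
  have e2 : f.norm ≤ gf (u n) (v n) := by
    have := gf_ultra (u n) f (v n); have := gf_comm (u n) f
    omega
  have e3 : lam * f.norm ≤ lam * gf (u n) (v n) :=
    mul_le_mul_of_nonneg_left (by exact_mod_cast e2) hl.le
  linarith

end Pool.Agent.Work.MP_46c206_al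
end
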